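import Pool.Agent.Q190.HP.Defs

set_option autoImplicit false

open ComplexConjugate Filter Topology

namespace Pool.Agent.Q190.HP

noncomputable section

set_option linter.unusedSectionVars false

variable {G : Type} [Group G]

section comm

variable {J : Type} [Fintype J] [DecidableEq J] {A : Type} [CommGroup A] (a : J → A)

open Classical in
/-- products of at most `N` powers -/
def UN (N : ℕ) : Finset A := Finset.univ.image (fun n : J → Fin (N + 1) => ∏ j, a j ^ (n j : ℕ))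

lemma card_UN (N : ℕ) : (UN a N).card ≤ (N + 1) ^ Fintype.card J := by
  classical
  unfold UN
  refine Finset.card_image_le.trans ?_
  rw [Finset.card_univ, Fintype.card_pi]
  simp

lemma UN_step (N : ℕ) (j : J) {x : A} (hx : x ∈ UN a N) : a j * x ∈ UN a (N + 1) := by
  classical
  unfold UN at hx ⊢
  rw [Finset.mem_image] at hx ⊢
  obtain ⟨n, _, rfl⟩ := hx
  refine ⟨fun i => if i = j then ⟨(n i : ℕ) + 1, by have := (n i).2; omega⟩
    else ⟨(n i : ℕ), by have := (n i).2; omega⟩, Finset.mem_univ _, ?_⟩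
  rw [← Finset.mul_prod_erase _ _ (Finset.mem_univ j),
    ← Finset.mul_prod_erase _ (fun i => a i ^ (n i : ℕ)) (Finset.mem_univ j)]
  simp only [if_true]
  rw [pow_succ', mul_assoc]
  congr 2
  refine Finset.prod_congr rfl fun i hi => ?_
  rw [if_neg (Finset.ne_of_mem_erase hi)]

lemma one_mem_UN : (1 : A) ∈ UN a 0 := by
  classical
  unfold UN
  rw [Finset.mem_image]
  exact ⟨fun _ => 0, Finset.mem_univ _, by simp⟩

variable (θ : A →* G) (hθ : Function.Injective θ) (c : J → ℂ)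

/-- iterates of `δ_e` -/
def hN (N : ℕ) : ell2 G := ((∑ j, c j • lam (θ (a j))) ^ N) (delta 1)

lemma hN_succ (N : ℕ) (x : G) : hN a θ c (N + 1) x = ∑ j, c j * hN a θ c N ((θ (a j))⁻¹ * x) := by
  unfold hN
  rw [pow_succ', mul_apply_eq_comp, sum_apply, lp.coeFn_sum, Finset.sum_apply]
  rfl

include hθ in
lemma hN_supp (N : ℕ) (x : G) (hx : ∀ y ∈ UN a N, θ y ≠ x) : hN a θ c N x = 0 := by
  induction N generalizing x with
  | zero =>
    unfold hN
    rw [pow_zero, one_apply_eq_self]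
    apply delta_ne
    intro h
    exact hx 1 (one_mem_UN a) (by rw [map_one, h])
  | succ N ih =>
    rw [hN_succ]
    apply Finset.sum_eq_zero
    intro j _
    rw [ih, mul_zero]
    intro y hy h
    apply hx (a j * y) (UN_step a N j hy)
    rw [map_mul, h, mul_inv_cancel_left]

include hθ in
lemma hN_sum (N : ℕ) : ∑ y ∈ UN a N, hN a θ c N (θ y) = (∑ j, c j) ^ N := by
  classical
  induction N with
  | zero =>
    rw [pow_zero]
    rw [Finset.sum_eq_single 1]
    · unfold hN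
      rw [pow_zero, one_apply_eq_self, map_one, delta_self]
    · intro y _ hy
      unfold hN
      rw [pow_zero, one_apply_eq_self]
      apply delta_ne
      intro h
      exact hy (hθ (by rw [h, map_one]))
    · intro h; exact absurd (one_mem_UN a) h
  | succ N ih =>
    simp_rw [hN_succ]
    rw [Finset.sum_comm, pow_succ', Finset.sum_mul]
    refine Finset.sum_congr rfl fun j _ => ?_
    rw [← Finset.mul_sum]
    congr 1
    rw [← ih]
    -- reindex
    have h1 : ∀ y, hN a θ c N ((θ (a j))⁻¹ * θ y) = hN a θ c N (θ ((a j)⁻¹ * y)) := by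
      intro y; rw [map_mul, map_inv]
    simp_rw [h1]
    have h2 : ∑ y ∈ (UN a N).image (fun y => a j * y), hN a θ c N (θ ((a j)⁻¹ * y))
        = ∑ y ∈ UN a N, hN a θ c N (θ y) := by
      rw [Finset.sum_image (fun x _ y _ h => mul_left_cancel h)]
      simp
    rw [← h2]
    symm
    apply Finset.sum_subset
    · intro y hy
      rw [Finset.mem_image] at hy
      obtain ⟨z, hz, rfl⟩ := hy
      exact UN_step a N j hz
    · intro y _ hy
      apply hN_supp a θ hθ c
      intro z hz h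
      apply hy
      rw [Finset.mem_image]
      exact ⟨z, hz, by rw [hθ h, mul_inv_cancel_left]⟩

lemma sum_sq_le_norm (f : ell2 G) (s : Finset G) : ∑ x ∈ s, ‖f x‖ ^ 2 ≤ ‖f‖ ^ 2 := by
  have h := lp.sum_rpow_le_norm_rpow two_pos f s
  have e : ((2 : ENNReal).toReal) = ((2 : ℕ) : ℝ) := by simp
  simp_rw [e, Real.rpow_natCast] at h
  exact h

include hθ in
/-- The trivial representation is weakly contained in the regular representation of an abelian
group. -/
theorem comm_lower : ‖∑ j, c j‖ ≤ ‖∑ j, c j • lam (θ (a j))‖ := by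
  classical
  set T : Bd G := ∑ j, c j • lam (θ (a j)) with hT
  by_contra hcon
  push Not at hcon
  have hT0 : 0 ≤ ‖T‖ := norm_nonneg _
  have hc0 : 0 < ‖∑ j, c j‖ := lt_of_le_of_lt hT0 hcon
  have key : ∀ N : ℕ, (‖∑ j, c j‖ ^ 2) ^ N ≤ ((N : ℝ) + 1) ^ Fintype.card J * (‖T‖ ^ 2) ^ N := by
    intro N
    have h1 : ‖∑ j, c j‖ ^ N ≤ ∑ y ∈ UN a N, ‖hN a θ c N (θ y)‖ := by
      rw [← norm_pow, ← hN_sum a θ hθ c N]
      exact norm_sum_le _ _
    have h2 : (∑ y ∈ UN a N, ‖hN a θ c N (θ y)‖) ^ 2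
        ≤ (UN a N).card * ∑ y ∈ UN a N, ‖hN a θ c N (θ y)‖ ^ 2 := sq_sum_le_card_mul_sum_sq
    have h3 : ∑ y ∈ UN a N, ‖hN a θ c N (θ y)‖ ^ 2 ≤ ‖hN a θ c N‖ ^ 2 := by
      rw [← Finset.sum_image (f := fun x => ‖hN a θ c N x‖ ^ 2) (g := θ)
        (fun x _ y _ h => hθ h)]
      exact sum_sq_le_norm _ _
    have h4 : ‖hN a θ c N‖ ≤ ‖T‖ ^ N := by
      unfold hN
      refine ((T ^ N).le_opNorm _).trans ?_
      rw [norm_delta, mul_one]
      rcases Nat.eq_zero_or_pos N with h | h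
      · subst h; rw [pow_zero, pow_zero]; exact ContinuousLinearMap.norm_id_le
      · exact norm_pow_le' T h
    have h5 : ((UN a N).card : ℝ) ≤ ((N : ℝ) + 1) ^ Fintype.card J := by
      exact_mod_cast card_UN a N
    calc (‖∑ j, c j‖ ^ 2) ^ N = (‖∑ j, c j‖ ^ N) ^ 2 := by rw [← pow_mul, ← pow_mul, mul_comm]
      _ ≤ (∑ y ∈ UN a N, ‖hN a θ c N (θ y)‖) ^ 2 := pow_le_pow_left₀ (by positivity) h1 2
      _ ≤ (UN a N).card * ∑ y ∈ UN a N, ‖hN a θ c N (θ y)‖ ^ 2 := h2
      _ ≤ ((N : ℝ) + 1) ^ Fintype.card J * ‖hN a θ c N‖ ^ 2 := by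
          apply mul_le_mul h5 h3 (Finset.sum_nonneg fun _ _ => by positivity) (by positivity)
      _ ≤ ((N : ℝ) + 1) ^ Fintype.card J * (‖T‖ ^ N) ^ 2 := by gcongr
      _ = _ := by rw [← pow_mul, ← pow_mul, mul_comm N 2]
  -- `‖T‖ > 0`
  have hTpos : 0 < ‖T‖ := by
    rcases hT0.eq_or_lt with h | h
    · have h1 := key 1
      rw [← h, zero_pow (by norm_num), pow_one, pow_one, mul_zero] at h1
      have h2 : 0 < ‖∑ j, c j‖ ^ 2 := pow_pos hc0 2
      linarith
    · exact h
  set r : ℝ := ‖∑ j, c j‖ ^ 2 / ‖T‖ ^ 2 with hr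
  have hr1 : 1 < r := by
    rw [hr, one_lt_div (by positivity)]
    exact pow_lt_pow_left₀ hcon hT0 (by norm_num)
  have h1 : ∀ N : ℕ, r ^ N ≤ ((N : ℝ) + 1) ^ Fintype.card J := by
    intro N
    rw [hr, div_pow, div_le_iff₀ (by positivity)]
    exact key N
  have h2 := tendsto_pow_const_div_const_pow_of_one_lt (Fintype.card J) hr1
  have h3 : Tendsto (fun N : ℕ => ((N + 1 : ℕ) : ℝ) ^ Fintype.card J / r ^ (N + 1)) atTop (𝓝 0) :=
    h2.comp (tendsto_add_atTop_nat 1)
  have h4 : ∀ᶠ N : ℕ in atTop, ((N + 1 : ℕ) : ℝ) ^ Fintype.card J / r ^ (N + 1) < 1 / r :=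
    h3.eventually (gt_mem_nhds (by positivity))
  obtain ⟨N, hN⟩ := h4.exists
  have h5 := h1 N
  rw [div_lt_div_iff₀ (by positivity) (by positivity), one_mul, pow_succ] at hN
  have hr0 : 0 < r := by linarith
  have h6 : ((N + 1 : ℕ) : ℝ) ^ Fintype.card J < r ^ N := lt_of_mul_lt_mul_right hN hr0.le
  push_cast at h6
  linarith

end comm

end

end Pool.Agent.Q190.HP
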