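import Pool.Agent.Q190.HP.Comm

set_option autoImplicit false

open ComplexConjugate Filter Topology

namespace Pool.Agent.Q190.HP

noncomputable section

set_option linter.unusedSectionVars false

variable {G : Type} [Group G]

/-- Weak containment of the trivial representation for a commuting family. -/
theorem comm_lower' {J : Type} [Fintype J] (S : J → G) (hS : ∀ i j, S i * S j = S j * S i)
    (c : J → ℂ) : ‖∑ j, c j‖ ≤ ‖∑ j, c j • lam (S j)‖ := by
  classical
  let k : Set G := Set.range S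
  have hk : ∀ x ∈ k, ∀ y ∈ k, x * y = y * x := by
    rintro _ ⟨i, rfl⟩ _ ⟨j, rfl⟩; exact hS i j
  letI : CommGroup (Subgroup.closure k) := Subgroup.closureCommGroupOfComm hk
  have h := comm_lower (G := G) (A := Subgroup.closure k)
    (fun j => (⟨S j, Subgroup.subset_closure ⟨j, rfl⟩⟩ : Subgroup.closure k))
    (Subgroup.closure k).subtype (Subgroup.closure k).subtype_injective c
  exact h

/-- the parallelogram inequality for commuting elements -/
lemma ND0.comm {d : G → ℝ} (hd : ND0 d) {g h : G} (hc : g * h = h * g) :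
    d (g * h) + d (g⁻¹ * h) ≤ 2 * d g + 2 * d h := by
  have h0 := hd.neg 4 ![1, g, h, g * h] ![1, -1, -1, 1] (by
    simp [Fin.sum_univ_succ])
  have e1 : h⁻¹ * g = (g⁻¹ * h)⁻¹ := by group
  have e2 : h⁻¹ * (g * h) = g := by rw [hc, inv_mul_cancel_left]
  have e3 : (g * h)⁻¹ * g = h⁻¹ := by rw [mul_inv_rev, mul_assoc, inv_mul_cancel, mul_one]
  have e4 : (g * h)⁻¹ * h = g⁻¹ := by rw [hc, mul_inv_rev, mul_assoc, inv_mul_cancel, mul_one]
  have e5 : g⁻¹ * (g * h) = h := by group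
  simp only [Fin.sum_univ_succ, Matrix.cons_val_zero, Matrix.cons_val_succ, Fin.succ_zero_eq_one,
    Fin.succ_one_eq_two, Finset.univ_unique, Fin.default_eq_zero,
    Finset.sum_singleton, Matrix.cons_val_fin_one, inv_one, one_mul, mul_one, inv_mul_cancel,
    e1, e2, e3, e4, e5, hd.symm, hd.one] at h0
  simp at h0
  linarith

/-- the triangle inequality for `√d` -/
lemma ND0.sqrt_mul {d : G → ℝ} (hd : ND0 d) (g h : G) :
    Real.sqrt (d (g * h)) ≤ Real.sqrt (d g) + Real.sqrt (d h) := by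
  -- quadratic inequality
  have key : ∀ s : ℝ, s * (1 - s) * d (g * h) ≤ s * d g + (1 - s) * d h := by
    intro s
    have h0 := hd.neg 3 ![1, g, g * h] ![(-s : ℝ), (1 : ℝ), (-(1 - s) : ℝ)] (by
      simp [Fin.sum_univ_succ])
    have e3 : (g * h)⁻¹ * g = h⁻¹ := by rw [mul_inv_rev, mul_assoc, inv_mul_cancel, mul_one]
    have e5 : g⁻¹ * (g * h) = h := by group
    simp only [Fin.sum_univ_succ, Matrix.cons_val_zero, Matrix.cons_val_succ,
      Finset.univ_unique, Fin.default_eq_zero,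
      Finset.sum_singleton, Matrix.cons_val_fin_one, inv_one, one_mul, mul_one, inv_mul_cancel,
      e3, e5, hd.symm, hd.one] at h0
    simp at h0
    nlinarith
  set x := Real.sqrt (d g) with hx
  set y := Real.sqrt (d h) with hy
  have hx2 : d g = x ^ 2 := (Real.sq_sqrt (hd.nonneg g)).symm
  have hy2 : d h = y ^ 2 := (Real.sq_sqrt (hd.nonneg h)).symm
  have hx0 : 0 ≤ x := Real.sqrt_nonneg _
  have hy0 : 0 ≤ y := Real.sqrt_nonneg _
  apply Real.sqrt_le_iff.2
  refine ⟨by positivity, ?_⟩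
  rw [hx2, hy2] at key
  rcases hx0.eq_or_lt with h1 | h1
  · -- x = 0
    rw [← h1] at key ⊢
    by_contra hcon
    push Not at hcon
    -- s close to 1
    have h2 : ∀ s : ℝ, 0 < s → s < 1 → s * d (g * h) ≤ y ^ 2 := by
      intro s hs0 hs1
      have h3 := key s
      have h4 : 0 < 1 - s := by linarith
      have h5 : (1 - s) * (s * d (g * h)) ≤ (1 - s) * y ^ 2 := by nlinarith
      exact le_of_mul_le_mul_left h5 h4
    have hpos : 0 < d (g * h) := by nlinarith [sq_nonneg y]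
    have h3 := h2 (((0 + y) ^ 2 / d (g * h) + 1) / 2) (by positivity) (by
      have : (0 + y) ^ 2 / d (g * h) < 1 := by rw [div_lt_one hpos]; exact hcon
      linarith)
    have h4 : ((0 + y) ^ 2 / d (g * h) + 1) / 2 * d (g * h) = (y ^ 2 + d (g * h)) / 2 := by
      field_simp; ring
    rw [h4] at h3
    nlinarith
  rcases hy0.eq_or_lt with h2 | h2
  · rw [← h2] at key ⊢
    by_contra hcon
    push Not at hcon
    have h3 : ∀ s : ℝ, 0 < s → s < 1 → (1 - s) * d (g * h) ≤ x ^ 2 := by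
      intro s hs0 hs1
      have h3 := key s
      have h5 : s * ((1 - s) * d (g * h)) ≤ s * x ^ 2 := by nlinarith
      exact le_of_mul_le_mul_left h5 hs0
    have hpos : 0 < d (g * h) := by nlinarith [sq_nonneg x]
    have h4 := h3 (1 - ((x + 0) ^ 2 / d (g * h) + 1) / 2) (by
      have : (x + 0) ^ 2 / d (g * h) < 1 := by rw [div_lt_one hpos]; exact hcon
      linarith) (by
      have : 0 ≤ (x + 0) ^ 2 / d (g * h) := by positivity
      linarith)
    have h5 : (1 - (1 - ((x + 0) ^ 2 / d (g * h) + 1) / 2)) * d (g * h)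
        = (x ^ 2 + d (g * h)) / 2 := by
      field_simp; ring
    rw [h5] at h4
    nlinarith
  · have h3 := key (y / (x + y))
    have hxy : 0 < x + y := by positivity
    have e1 : 1 - y / (x + y) = x / (x + y) := by field_simp; ring
    rw [e1] at h3
    have e2 : y / (x + y) * (x / (x + y)) * d (g * h) = (x * y / (x + y) ^ 2) * d (g * h) := by
      field_simp
    have e3 : y / (x + y) * x ^ 2 + x / (x + y) * y ^ 2 = x * y := by field_simp
    rw [e2, e3] at h3
    have h4 : (x * y / (x + y) ^ 2) * d (g * h) ≤ (x * y / (x + y) ^ 2) * (x + y) ^ 2 := by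
      have : (x * y / (x + y) ^ 2) * (x + y) ^ 2 = x * y := by field_simp
      rw [this]; exact h3
    exact le_of_mul_le_mul_left h4 (by positivity)

lemma ND0.sqrt_conj {d : G → ℝ} (hd : ND0 d) (c g : G) :
    Real.sqrt (d (c * g * c⁻¹)) ≤ Real.sqrt (d g) + 2 * Real.sqrt (d c) := by
  have h1 := hd.sqrt_mul (c * g) c⁻¹
  have h2 := hd.sqrt_mul c g
  rw [hd.symm] at h1
  linarith

/-- conjugation does not increase averages too much -/
lemma ND0.sum_conj {d : G → ℝ} (hd : ND0 d) {I : Type} [Fintype I] (S : I → G) (c : G)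
    {γ v : ℝ} (hγ : Real.sqrt (d c) ≤ γ) (hv : 0 ≤ v)
    (hs : ∑ i, d (S i) ≤ Fintype.card I * v ^ 2) :
    ∑ i, d (c * S i * c⁻¹) ≤ Fintype.card I * (v + 2 * γ) ^ 2 := by
  have hγ0 : 0 ≤ γ := (Real.sqrt_nonneg _).trans hγ
  have h1 : ∀ i, d (c * S i * c⁻¹) ≤ d (S i) + 4 * γ * Real.sqrt (d (S i)) + 4 * γ ^ 2 := by
    intro i
    have h2 := hd.sqrt_conj c (S i)
    have h3 : d (c * S i * c⁻¹) = Real.sqrt (d (c * S i * c⁻¹)) ^ 2 :=
      (Real.sq_sqrt (hd.nonneg _)).symm
    have h4 : Real.sqrt (d (c * S i * c⁻¹)) ≤ Real.sqrt (d (S i)) + 2 * γ := by linarith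
    have h5 : Real.sqrt (d (S i)) ^ 2 = d (S i) := Real.sq_sqrt (hd.nonneg _)
    calc d (c * S i * c⁻¹) = Real.sqrt (d (c * S i * c⁻¹)) ^ 2 := h3
      _ ≤ (Real.sqrt (d (S i)) + 2 * γ) ^ 2 := pow_le_pow_left₀ (Real.sqrt_nonneg _) h4 2
      _ = Real.sqrt (d (S i)) ^ 2 + 4 * γ * Real.sqrt (d (S i)) + 4 * γ ^ 2 := by ring
      _ = _ := by rw [h5]
  have h2 : ∑ i, Real.sqrt (d (S i)) ≤ Fintype.card I * v := by
    have h3 : (∑ i, Real.sqrt (d (S i))) ^ 2 ≤ Fintype.card I * ∑ i, Real.sqrt (d (S i)) ^ 2 := by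
      have := sq_sum_le_card_mul_sum_sq (s := (Finset.univ : Finset I))
        (f := fun i => Real.sqrt (d (S i)))
      simpa using this
    have h4 : ∑ i, Real.sqrt (d (S i)) ^ 2 = ∑ i, d (S i) :=
      Finset.sum_congr rfl fun i _ => Real.sq_sqrt (hd.nonneg _)
    rw [h4] at h3
    apply le_of_sq_le_sq _ (by positivity)
    calc (∑ i, Real.sqrt (d (S i))) ^ 2 ≤ Fintype.card I * ∑ i, d (S i) := h3
      _ ≤ Fintype.card I * (Fintype.card I * v ^ 2) := by gcongr
      _ = _ := by ring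
  calc ∑ i, d (c * S i * c⁻¹) ≤ ∑ i, (d (S i) + 4 * γ * Real.sqrt (d (S i)) + 4 * γ ^ 2) :=
        Finset.sum_le_sum fun i _ => h1 i
    _ = ∑ i, d (S i) + 4 * γ * ∑ i, Real.sqrt (d (S i)) + Fintype.card I * (4 * γ ^ 2) := by
        rw [Finset.sum_add_distrib, Finset.sum_add_distrib, ← Finset.mul_sum]
        simp
    _ ≤ Fintype.card I * v ^ 2 + 4 * γ * (Fintype.card I * v) + Fintype.card I * (4 * γ ^ 2) := by
        gcongr
    _ = _ := by ring

end

end Pool.Agent.Q190.HP
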