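import Pool.Agent.Q190.HP.Crit

set_option autoImplicit false

open ComplexConjugate Filter Topology

namespace Pool.Agent.Q190.HP

noncomputable section

set_option linter.unusedSectionVars false

variable {G : Type} [Group G]

/-- Self-similar commuting data in `G`. -/
structure SelfSim (B : Subgroup G) (a g0 g1 : G) : Prop where
  mem : a ∈ B
  sq : a * a ≠ 1
  conj0 : ∀ b ∈ B, g0 * b * g0⁻¹ ∈ B
  conj1 : ∀ b ∈ B, g1 * b * g1⁻¹ ∈ B
  comm : ∀ x ∈ B, ∀ y ∈ B, (g0 * x * g0⁻¹) * (g1 * y * g1⁻¹) = (g1 * y * g1⁻¹) * (g0 * x * g0⁻¹)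
  triv : ∀ x ∈ B, ∀ y ∈ B, g0 * x * g0⁻¹ = g1 * y * g1⁻¹ → x = 1

/-- the properties of the `k`-th family -/
structure Fam (B : Subgroup G) (d : G → ℝ) (I : Type) [Fintype I] (S : I → G) (ν : I → I)
    (q : I → ℝ) (n : ℕ) (R D : ℝ) : Prop where
  memB : ∀ i, S i ∈ B
  inj : Function.Injective S
  comm : ∀ i j, S i * S j = S j * S i
  invol : ∀ i, ν (ν i) = i
  inv : ∀ i, S (ν i) = (S i)⁻¹
  sign : ∀ i, q i = 1 ∨ q i = -1
  norm : ‖∑ i, (q i : ℂ) • lam (S i)‖ ≤ R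
  card : Fintype.card I = n
  avg : ∑ i, d (S i) ≤ n * D ^ 2

variable {B : Subgroup G} {a g0 g1 : G} {d : G → ℝ}

lemma SelfSim.inj (h : SelfSim B a g0 g1) {x y x' y' : G} (hx : x ∈ B) (hy : y ∈ B) (hx' : x' ∈ B)
    (hy' : y' ∈ B) (he : (g0 * x * g0⁻¹) * (g1 * y * g1⁻¹) = (g0 * x' * g0⁻¹) * (g1 * y' * g1⁻¹)) :
    x = x' ∧ y = y' := by
  have h1 : g0 * (x'⁻¹ * x) * g0⁻¹ = g1 * (y' * y⁻¹) * g1⁻¹ := by
    have h2 : (g0 * x' * g0⁻¹)⁻¹ * ((g0 * x * g0⁻¹) * (g1 * y * g1⁻¹)) * (g1 * y * g1⁻¹)⁻¹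
        = (g0 * x' * g0⁻¹)⁻¹ * ((g0 * x' * g0⁻¹) * (g1 * y' * g1⁻¹)) * (g1 * y * g1⁻¹)⁻¹ := by
      rw [he]
    have h3 : (g0 * x' * g0⁻¹)⁻¹ * ((g0 * x * g0⁻¹) * (g1 * y * g1⁻¹)) * (g1 * y * g1⁻¹)⁻¹
        = g0 * (x'⁻¹ * x) * g0⁻¹ := by group
    have h4 : (g0 * x' * g0⁻¹)⁻¹ * ((g0 * x' * g0⁻¹) * (g1 * y' * g1⁻¹)) * (g1 * y * g1⁻¹)⁻¹
        = g1 * (y' * y⁻¹) * g1⁻¹ := by group
    rw [← h3, h2, h4]
  have h2 := h.triv _ (B.mul_mem (B.inv_mem hx') hx) _ (B.mul_mem hy' (B.inv_mem hy)) h1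
  have h3 : x = x' := by
    have := congrArg (fun z => x' * z) h2
    simpa using this
  subst h3
  refine ⟨rfl, ?_⟩
  have h4 := mul_left_cancel he
  have h5 := mul_right_cancel h4
  exact mul_left_cancel h5

lemma SelfSim.comm' (h : SelfSim B a g0 g1) {x y x' y' : G} (hx : x ∈ B) (hy : y ∈ B) (hx' : x' ∈ B)
    (hy' : y' ∈ B) (h1 : x * x' = x' * x) (h2 : y * y' = y' * y) :
    ((g0 * x * g0⁻¹) * (g1 * y * g1⁻¹)) * ((g0 * x' * g0⁻¹) * (g1 * y' * g1⁻¹))
      = ((g0 * x' * g0⁻¹) * (g1 * y' * g1⁻¹)) * ((g0 * x * g0⁻¹) * (g1 * y * g1⁻¹)) := by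
  have c1 : Commute (g0 * x * g0⁻¹) (g1 * y' * g1⁻¹) := h.comm _ hx _ hy'
  have c2 : Commute (g1 * y * g1⁻¹) (g0 * x' * g0⁻¹) := (h.comm _ hx' _ hy).symm
  have c3 : Commute (g0 * x * g0⁻¹) (g0 * x' * g0⁻¹) := by
    show _ = _
    calc (g0 * x * g0⁻¹) * (g0 * x' * g0⁻¹) = g0 * (x * x') * g0⁻¹ := by group
      _ = g0 * (x' * x) * g0⁻¹ := by rw [h1]
      _ = _ := by group
  have c4 : Commute (g1 * y * g1⁻¹) (g1 * y' * g1⁻¹) := by
    show _ = _
    calc (g1 * y * g1⁻¹) * (g1 * y' * g1⁻¹) = g1 * (y * y') * g1⁻¹ := by group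
      _ = g1 * (y' * y) * g1⁻¹ := by rw [h2]
      _ = _ := by group
  exact (Commute.mul_left (Commute.mul_right c3 c1) (Commute.mul_right c2 c4))

lemma lam_inv_mul (g : G) : lam g⁻¹ * lam g = 1 := by rw [← lam_mul, inv_mul_cancel, lam_one]

/-- The recursion step. -/
theorem Fam.step (h : SelfSim B a g0 g1) (hd : ND0 d) {I : Type} [Fintype I] {S : I → G}
    {ν : I → I} {q : I → ℝ} {n : ℕ} {R D γ : ℝ} (hD : 0 ≤ D)
    (h0 : Real.sqrt (d g0) ≤ γ) (h1 : Real.sqrt (d g1) ≤ γ) (F : Fam B d I S ν q n R D) :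
    Fam B d (I × I) (fun p => (g0 * S p.1 * g0⁻¹) * (g1 * S p.2 * g1⁻¹))
      (fun p => (ν p.1, ν p.2)) (fun p => q p.1 * q p.2) (n ^ 2) (R ^ 2)
      (Real.sqrt 2 * (D + 2 * γ)) := by
  have hR : 0 ≤ R := (norm_nonneg _).trans F.norm
  constructor
  · intro p
    exact B.mul_mem (h.conj0 _ (F.memB _)) (h.conj1 _ (F.memB _))
  · rintro ⟨i, j⟩ ⟨i', j'⟩ he
    obtain ⟨e1, e2⟩ := h.inj (F.memB _) (F.memB _) (F.memB _) (F.memB _) he
    have e1' : i = i' := F.inj e1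
    have e2' : j = j' := F.inj e2
    rw [e1', e2']
  · intro p r
    exact h.comm' (F.memB _) (F.memB _) (F.memB _) (F.memB _) (F.comm _ _) (F.comm _ _)
  · rintro ⟨i, j⟩
    simp only [F.invol]
  · rintro ⟨i, j⟩
    simp only [F.inv]
    have c1 := h.comm _ (F.memB i) _ (F.memB j)
    rw [c1, mul_inv_rev]
    group
  · rintro ⟨i, j⟩
    simp only
    rcases F.sign i with h2 | h2 <;> rcases F.sign j with h3 | h3 <;> rw [h2, h3] <;> norm_num
  · -- norm
    have e : ∑ p : I × I, ((q p.1 * q p.2 : ℝ) : ℂ) •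
        lam ((g0 * S p.1 * g0⁻¹) * (g1 * S p.2 * g1⁻¹))
        = (lam g0 * (∑ i, (q i : ℂ) • lam (S i)) * lam g0⁻¹)
          * (lam g1 * (∑ i, (q i : ℂ) • lam (S i)) * lam g1⁻¹) := by
      have hA : ∀ g : G, lam g * (∑ i, (q i : ℂ) • lam (S i)) * lam g⁻¹
          = ∑ i, (q i : ℂ) • lam (g * S i * g⁻¹) := by
        intro g
        rw [Finset.mul_sum, Finset.sum_mul]
        refine Finset.sum_congr rfl fun i _ => ?_
        rw [lam_mul, lam_mul, mul_smul_comm, smul_mul_assoc]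
      rw [hA, hA, Finset.sum_mul_sum, Fintype.sum_prod_type]
      refine Finset.sum_congr rfl fun i _ => Finset.sum_congr rfl fun j _ => ?_
      rw [lam_mul (g0 * S i * g0⁻¹) (g1 * S j * g1⁻¹), smul_mul_smul_comm]
      push_cast
      rfl
    rw [e]
    have hb : ∀ g : G, ‖lam g * (∑ i, (q i : ℂ) • lam (S i)) * lam g⁻¹‖ ≤ R := by
      intro g
      calc ‖lam g * (∑ i, (q i : ℂ) • lam (S i)) * lam g⁻¹‖
          ≤ ‖lam g * (∑ i, (q i : ℂ) • lam (S i))‖ * ‖lam g⁻¹‖ := norm_mul_le _ _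
        _ ≤ (‖lam g‖ * ‖∑ i, (q i : ℂ) • lam (S i)‖) * ‖lam g⁻¹‖ := by
            gcongr; exact norm_mul_le _ _
        _ ≤ (1 * R) * 1 := by
            gcongr
            · exact norm_lam_le g
            · exact F.norm
            · exact norm_lam_le _
        _ = R := by ring
    refine (norm_mul_le _ _).trans ?_
    rw [pow_two]
    exact mul_le_mul (hb g0) (hb g1) (norm_nonneg _) hR
  · rw [Fintype.card_prod, F.card, pow_two]
  · -- averages
    have hn : (Fintype.card I : ℝ) = n := by rw [F.card]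
    have s0 := hd.sum_conj S g0 h0 hD (by rw [hn]; exact F.avg)
    have s1 := hd.sum_conj S g1 h1 hD (by rw [hn]; exact F.avg)
    rw [hn] at s0 s1
    -- symmetrization
    have hsym : ∑ p : I × I, d ((g0 * S p.1 * g0⁻¹) * (g1 * S p.2 * g1⁻¹))
        = ∑ p : I × I, d ((g0 * S p.1 * g0⁻¹)⁻¹ * (g1 * S p.2 * g1⁻¹)) := by
      let e : I × I ≃ I × I :=
        { toFun := fun p => (ν p.1, p.2)
          invFun := fun p => (ν p.1, p.2)
          left_inv := fun p => by simp [F.invol]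
          right_inv := fun p => by simp [F.invol] }
      rw [← e.sum_comp]
      refine Finset.sum_congr rfl fun p _ => ?_
      show d ((g0 * S (ν p.1) * g0⁻¹) * (g1 * S p.2 * g1⁻¹)) = _
      rw [F.inv]
      congr 2
      group
    have h2 : ∑ p : I × I, d ((g0 * S p.1 * g0⁻¹) * (g1 * S p.2 * g1⁻¹))
        ≤ ∑ p : I × I, (d (g0 * S p.1 * g0⁻¹) + d (g1 * S p.2 * g1⁻¹)) := by
      have h3 : ∑ p : I × I, (d ((g0 * S p.1 * g0⁻¹) * (g1 * S p.2 * g1⁻¹))
          + d ((g0 * S p.1 * g0⁻¹)⁻¹ * (g1 * S p.2 * g1⁻¹)))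
          ≤ ∑ p : I × I, (2 * d (g0 * S p.1 * g0⁻¹) + 2 * d (g1 * S p.2 * g1⁻¹)) :=
        Finset.sum_le_sum fun p _ => hd.comm (h.comm _ (F.memB _) _ (F.memB _))
      rw [Finset.sum_add_distrib, ← hsym] at h3
      have h4 : ∑ p : I × I, (2 * d (g0 * S p.1 * g0⁻¹) + 2 * d (g1 * S p.2 * g1⁻¹))
          = 2 * ∑ p : I × I, (d (g0 * S p.1 * g0⁻¹) + d (g1 * S p.2 * g1⁻¹)) := by
        rw [Finset.mul_sum]
        exact Finset.sum_congr rfl fun p _ => by ring
      rw [h4] at h3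
      linarith
    have h3 : ∑ p : I × I, (d (g0 * S p.1 * g0⁻¹) + d (g1 * S p.2 * g1⁻¹))
        = n * ∑ i, d (g0 * S i * g0⁻¹) + n * ∑ i, d (g1 * S i * g1⁻¹) := by
      rw [Fintype.sum_prod_type]
      simp only [Finset.sum_add_distrib, Finset.sum_const, Finset.card_univ, F.card, nsmul_eq_mul]
      rw [← Finset.mul_sum]
    rw [h3] at h2
    refine h2.trans ?_
    have hn0 : (0:ℝ) ≤ n := Nat.cast_nonneg n
    calc (n:ℝ) * ∑ i, d (g0 * S i * g0⁻¹) + n * ∑ i, d (g1 * S i * g1⁻¹)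
        ≤ n * (n * (D + 2 * γ) ^ 2) + n * (n * (D + 2 * γ) ^ 2) := by gcongr
      _ = _ := by
        push_cast
        rw [mul_pow, Real.sq_sqrt (by norm_num)]
        ring

/-- The first family. -/
theorem Fam.base (h : SelfSim B a g0 g1) (hd : ND0 d) : ∃ D : ℝ, 0 ≤ D ∧
    ∃ (S : Bool × Bool → G) (ν : Bool × Bool → Bool × Bool) (q : Bool × Bool → ℝ),
      Fam B d (Bool × Bool) S ν q 4 (2 * Real.sqrt 2) D := by
  let b : Bool → G := fun t => if t then a else a⁻¹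
  have hb : ∀ t, b t ∈ B := by
    intro t; cases t
    · exact B.inv_mem h.mem
    · exact h.mem
  have hne : b true ≠ b false := by
    show a ≠ a⁻¹
    intro he
    apply h.sq
    nth_rw 1 [he]
    rw [inv_mul_cancel]
  let S : Bool × Bool → G := fun p => (g0 * b p.1 * g0⁻¹) * (g1 * b p.2 * g1⁻¹)
  refine ⟨Real.sqrt (∑ p, d (S p)), Real.sqrt_nonneg _, S, fun p => (!p.1, !p.2),
    fun p => if p = (false, false) then -1 else 1, ?_⟩
  have hbc : ∀ s t, b s * b t = b t * b s := by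
    intro s t
    cases s <;> cases t <;> simp [b]
  have hbi : Function.Injective b := by
    intro s t hst
    cases s <;> cases t
    · rfl
    · exact absurd hst.symm hne
    · exact absurd hst hne
    · rfl
  constructor
  · intro p
    exact B.mul_mem (h.conj0 _ (hb _)) (h.conj1 _ (hb _))
  · rintro ⟨i, j⟩ ⟨i', j'⟩ he
    obtain ⟨e1, e2⟩ := h.inj (hb _) (hb _) (hb _) (hb _) he
    have e1' : i = i' := hbi e1
    have e2' : j = j' := hbi e2
    rw [e1', e2']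
  · intro p r
    exact h.comm' (hb _) (hb _) (hb _) (hb _) (hbc _ _) (hbc _ _)
  · rintro ⟨i, j⟩; simp
  · rintro ⟨i, j⟩
    have c1 := h.comm _ (hb i) _ (hb j)
    have hbn : ∀ t, b (!t) = (b t)⁻¹ := by
      intro t; cases t <;> simp [b]
    simp only [S, hbn]
    rw [c1, mul_inv_rev]
    group
  · intro p
    by_cases hp : p = (false, false)
    · right; simp [hp]
    · left; simp [hp]
  · -- the norm
    set u := g0 * a * g0⁻¹ with hu
    set v := g1 * a * g1⁻¹ with hv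
    have e : ∑ p : Bool × Bool, (((if p = (false, false) then -1 else 1 : ℝ)) : ℂ) • lam (S p)
        = lam u * (lam v + lam v⁻¹) + lam u⁻¹ * (lam v - lam v⁻¹) := by
      rw [Fintype.sum_prod_type]
      simp only [Fintype.sum_bool, S, b]
      have e1 : g0 * a⁻¹ * g0⁻¹ = u⁻¹ := by rw [hu]; group
      have e2 : g1 * a⁻¹ * g1⁻¹ = v⁻¹ := by rw [hv]; group
      simp [e1, e2, ← hu, ← hv, lam_mul]
      noncomm_ring
    rw [e]
    apply ContinuousLinearMap.opNorm_le_bound _ (by positivity)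
    intro x
    set y1 := lam v x + lam v⁻¹ x with hy1
    set y2 := lam v x - lam v⁻¹ x with hy2
    have e2 : (lam u * (lam v + lam v⁻¹) + lam u⁻¹ * (lam v - lam v⁻¹)) x
        = lam u y1 + lam u⁻¹ y2 := rfl
    rw [e2]
    have h3 : ‖lam u y1 + lam u⁻¹ y2‖ ≤ ‖y1‖ + ‖y2‖ := by
      refine (norm_add_le _ _).trans ?_
      rw [norm_lam_apply, norm_lam_apply]
    have h4 := parallelogram_law_with_norm ℂ (lam v x) (lam v⁻¹ x)
    rw [← hy1, ← hy2, norm_lam_apply, norm_lam_apply] at h4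
    refine h3.trans ?_
    apply le_of_sq_le_sq _ (by positivity)
    rw [mul_pow, mul_pow, Real.sq_sqrt (by norm_num)]
    nlinarith [sq_nonneg (‖y1‖ - ‖y2‖), norm_nonneg y1, norm_nonneg y2]
  · rfl
  · rw [Real.sq_sqrt (Finset.sum_nonneg fun _ _ => hd.nonneg _)]
    have : 0 ≤ ∑ p, d (S p) := Finset.sum_nonneg fun _ _ => hd.nonneg _
    push_cast
    linarith

/-- All families. -/
theorem Fam.all (h : SelfSim B a g0 g1) (hd : ND0 d) : ∃ M : ℝ, 0 ≤ M ∧ ∀ k : ℕ,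
    ∃ (I : Type) (_ : Fintype I) (S : I → G) (ν : I → I) (q : I → ℝ),
      Fam B d I S ν q (4 ^ (2 ^ k)) ((2 * Real.sqrt 2) ^ (2 ^ k)) ((Real.sqrt 2) ^ k * M) := by
  obtain ⟨D, hD, S0, ν0, q0, F0⟩ := Fam.base h hd
  set γ : ℝ := max (Real.sqrt (d g0)) (Real.sqrt (d g1)) with hγ
  have hγ0 : 0 ≤ γ := (Real.sqrt_nonneg _).trans (le_max_left _ _)
  set r : ℝ := (Real.sqrt 2)⁻¹ with hr
  have hs2 : Real.sqrt 2 ^ 2 = 2 := Real.sq_sqrt (by norm_num)
  have hs0 : 0 < Real.sqrt 2 := by positivity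
  have hr0 : 0 < r := by positivity
  have hr1 : 8 * r ≤ 6 := by
    have h1 : (4/3 : ℝ) ≤ Real.sqrt 2 := by
      apply Real.le_sqrt_of_sq_le; norm_num
    rw [hr]
    have h2 : (Real.sqrt 2)⁻¹ ≤ (4/3 : ℝ)⁻¹ := by gcongr
    norm_num at h2
    linarith
  have claim : ∀ k : ℕ, ∃ (u : ℝ), 0 ≤ u ∧ u ≤ D + 8 * γ - 8 * γ * r ^ k ∧
      ∃ (I : Type) (_ : Fintype I) (S : I → G) (ν : I → I) (q : I → ℝ),
      Fam B d I S ν q (4 ^ (2 ^ k)) ((2 * Real.sqrt 2) ^ (2 ^ k)) ((Real.sqrt 2) ^ k * u) := by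
    intro k
    induction k with
    | zero =>
      refine ⟨D, hD, by simp, Bool × Bool, inferInstance, S0, ν0, q0, ?_⟩
      simpa using F0
    | succ k ih =>
      obtain ⟨u, hu0, hu1, I, _, S, ν, q, F⟩ := ih
      have F' := F.step h hd (by positivity) (le_max_left _ _) (le_max_right _ _)
      refine ⟨u + 2 * γ * r ^ k, by positivity, ?_, I × I, inferInstance,
        fun p => (g0 * S p.1 * g0⁻¹) * (g1 * S p.2 * g1⁻¹), fun p => (ν p.1, ν p.2),
        fun p => q p.1 * q p.2, ?_⟩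
      · have h1 : 8 * γ * r ^ (k + 1) ≤ 6 * γ * r ^ k := by
          rw [pow_succ]
          have : 0 ≤ γ * r ^ k := by positivity
          nlinarith
        linarith
      · have e1 : (4:ℕ) ^ (2 ^ (k + 1)) = (4 ^ (2 ^ k)) ^ 2 := by rw [← pow_mul, pow_succ]
        have e2 : (2 * Real.sqrt 2) ^ (2 ^ (k + 1)) = ((2 * Real.sqrt 2) ^ (2 ^ k)) ^ 2 := by
          rw [← pow_mul, pow_succ]
        have e3 : (Real.sqrt 2) ^ (k + 1) * (u + 2 * γ * r ^ k)
            = Real.sqrt 2 * ((Real.sqrt 2) ^ k * u + 2 * γ) := by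
          have h3 : (Real.sqrt 2) ^ k * r ^ k = 1 := by
            rw [hr, ← mul_pow, mul_inv_cancel₀ hs0.ne', one_pow]
          rw [pow_succ]
          linear_combination (2 * γ * Real.sqrt 2) * h3
        rw [e1, e2, e3]
        exact F'
  refine ⟨D + 8 * γ, by positivity, fun k => ?_⟩
  obtain ⟨u, hu0, hu1, I, inst, S, ν, q, F⟩ := claim k
  refine ⟨I, inst, S, ν, q, { F with avg := F.avg.trans ?_ }⟩
  have h1 : u ≤ D + 8 * γ := by
    have : 0 ≤ 8 * γ * r ^ k := by positivity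
    linarith
  gcongr

/-- Absolute sums are controlled for real coefficients supported on a commuting family. -/
theorem Fam.abs_sum {I : Type} [Fintype I] {S : I → G} {ν : I → I} {q : I → ℝ} {n : ℕ} {R D : ℝ}
    (F : Fam B d I S ν q n R D) {t K : ℝ} (hK0 : 0 ≤ K)
    (hK : ∀ x ∈ reducedCstar G, ∀ s : Finset G,
      ‖∑ g ∈ s, ((Real.exp (-t * d g) : ℂ) * fourier x g) • lam g‖ ≤ K * ‖x‖) :
    ∑ i, Real.exp (-t * d (S i)) ≤ 2 * (K * R) := by
  classical
  set x : Bd G := ∑ i, (q i : ℂ) • lam (S i) with hx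
  have hxm : x ∈ reducedCstar G :=
    Submodule.sum_mem _ fun i _ => Submodule.smul_mem _ _ (lam_mem _)
  have hfx : ∀ i, fourier x (S i) = q i := by
    intro i
    rw [← fourierCLM_apply, hx, map_sum, Finset.sum_eq_single i]
    · rw [map_smul, fourierCLM_apply, fourier_lam_self]; simp
    · intro j _ hj
      rw [map_smul, fourierCLM_apply, fourier_lam_ne, smul_zero]
      intro he
      exact hj (F.inj he).symm
    · intro h; exact absurd (Finset.mem_univ _) h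
  have key : ∀ s : Finset I, ‖∑ i ∈ s, ((q i : ℂ) * (Real.exp (-t * d (S i)) : ℂ))‖ ≤ K * R := by
    intro s
    have h1 := hK x hxm (s.image S)
    rw [Finset.sum_image (fun i _ j _ h => F.inj h)] at h1
    have h2 : ∑ i ∈ s, ((Real.exp (-t * d (S i)) : ℂ) * fourier x (S i)) • lam (S i)
        = ∑ i : s, ((q i : ℂ) * (Real.exp (-t * d (S i)) : ℂ)) • lam (S i) := by
      rw [← Finset.sum_coe_sort s]
      refine Finset.sum_congr rfl fun i _ => ?_
      rw [hfx, mul_comm]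
    rw [h2] at h1
    have h3 := comm_lower' (fun i : s => S i) (fun i j => F.comm _ _)
      (fun i : s => (q i : ℂ) * (Real.exp (-t * d (S i)) : ℂ))
    rw [← Finset.sum_coe_sort s]
    refine h3.trans (h1.trans ?_)
    exact mul_le_mul_of_nonneg_left F.norm hK0
  have h1 := key (Finset.univ.filter fun i => q i = 1)
  have h2 := key (Finset.univ.filter fun i => ¬ q i = 1)
  have e1 : ∑ i ∈ Finset.univ.filter (fun i => q i = 1), ((q i : ℂ) * (Real.exp (-t * d (S i)) : ℂ))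
      = ((∑ i ∈ Finset.univ.filter (fun i => q i = 1), Real.exp (-t * d (S i)) : ℝ) : ℂ) := by
    rw [Complex.ofReal_sum]
    refine Finset.sum_congr rfl fun i hi => ?_
    rw [Finset.mem_filter] at hi
    rw [hi.2]; simp
  have e2 : ∑ i ∈ Finset.univ.filter (fun i => ¬ q i = 1),
      ((q i : ℂ) * (Real.exp (-t * d (S i)) : ℂ))
      = - ((∑ i ∈ Finset.univ.filter (fun i => ¬ q i = 1), Real.exp (-t * d (S i)) : ℝ) : ℂ) := by
    rw [Complex.ofReal_sum, ← Finset.sum_neg_distrib]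
    refine Finset.sum_congr rfl fun i hi => ?_
    rw [Finset.mem_filter] at hi
    have h3 : q i = -1 := (F.sign i).resolve_left hi.2
    rw [h3]; simp
  rw [e1, Complex.norm_real, Real.norm_of_nonneg (Finset.sum_nonneg fun _ _ => (Real.exp_pos _).le)]
    at h1
  rw [e2, norm_neg, Complex.norm_real,
    Real.norm_of_nonneg (Finset.sum_nonneg fun _ _ => (Real.exp_pos _).le)] at h2
  rw [← Finset.sum_filter_add_sum_filter_not Finset.univ (fun i => q i = 1)]
  linarith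

/-- Jensen's inequality. -/
theorem Fam.jensen {I : Type} [Fintype I] {S : I → G} {ν : I → I} {q : I → ℝ} {n : ℕ} {R D : ℝ}
    (F : Fam B d I S ν q n R D) {t : ℝ} (ht : 0 ≤ t) :
    n * Real.exp (-t * D ^ 2) ≤ ∑ i, Real.exp (-t * d (S i)) := by
  have h1 : ∀ i, Real.exp (-t * D ^ 2) * (1 + (-t * d (S i) - -t * D ^ 2))
      ≤ Real.exp (-t * d (S i)) := by
    intro i
    have h2 := Real.add_one_le_exp (-t * d (S i) - -t * D ^ 2)
    calc _ ≤ Real.exp (-t * D ^ 2) * Real.exp (-t * d (S i) - -t * D ^ 2) := by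
          gcongr; linarith
      _ = _ := by rw [← Real.exp_add]; congr 1; ring
  calc n * Real.exp (-t * D ^ 2)
      ≤ ∑ i, Real.exp (-t * D ^ 2) * (1 + (-t * d (S i) - -t * D ^ 2)) := by
        rw [← Finset.mul_sum, Finset.sum_add_distrib, Finset.sum_sub_distrib, ← Finset.mul_sum,
          Finset.sum_const, Finset.sum_const, Finset.card_univ, F.card, nsmul_eq_mul, nsmul_eq_mul,
          mul_one]
        have h2 := F.avg
        have h3 : (n : ℝ) ≤ n + (-t * ∑ i, d (S i) - n * (-t * D ^ 2)) := by nlinarith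
        rw [mul_comm]
        exact mul_le_mul_of_nonneg_left h3 (Real.exp_pos _).le
    _ ≤ _ := Finset.sum_le_sum fun i _ => h1 i

/-- **Criterion**: a group with self-similar commuting data does not have the heat property. -/
theorem not_heat (h : SelfSim B a g0 g1) : ¬ HeatProperty G := by
  rintro ⟨d, hd, hH⟩
  obtain ⟨M, hM, hF⟩ := Fam.all h hd
  set t : ℝ := 1 / (10 * (M ^ 2 + 1)) with ht
  have ht0 : 0 < t := by positivity
  have htM : t * M ^ 2 ≤ 1 / 10 := by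
    rw [ht, div_mul_eq_mul_div, div_le_div_iff₀ (by positivity) (by norm_num)]
    nlinarith
  -- uniform bound
  obtain ⟨K, hK0, hK⟩ := uniform_bound (c := fun g => (Real.exp (-t * d g) : ℂ)) (by
    intro x hx
    obtain ⟨y, ⟨_, hy⟩, hy2⟩ := hH x hx t ht0
    refine hy.congr fun g => ?_
    rw [hy2])
  -- compare
  have h1 : ∀ k : ℕ, ((4:ℝ) * Real.exp (-(1/10))) ^ (2 ^ k) ≤ 2 * K * (2 * Real.sqrt 2) ^ (2 ^ k) := by
    intro k
    obtain ⟨I, _, S, ν, q, F⟩ := hF k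
    have h2 := F.abs_sum hK0 hK
    have h3 := F.jensen ht0.le
    have h4 : Real.exp (-(1/10)) ^ (2 ^ k) ≤ Real.exp (-t * ((Real.sqrt 2) ^ k * M) ^ 2) := by
      rw [← Real.exp_nat_mul]
      apply Real.exp_le_exp.2
      rw [mul_pow, ← pow_mul, mul_comm k 2, pow_mul, Real.sq_sqrt (by norm_num)]
      push_cast
      have : (0:ℝ) ≤ 2 ^ k := by positivity
      nlinarith
    calc ((4:ℝ) * Real.exp (-(1/10))) ^ (2 ^ k)
        = (4:ℝ) ^ (2 ^ k) * Real.exp (-(1/10)) ^ (2 ^ k) := mul_pow _ _ _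
      _ ≤ (4:ℝ) ^ (2 ^ k) * Real.exp (-t * ((Real.sqrt 2) ^ k * M) ^ 2) := by gcongr
      _ ≤ 2 * (K * (2 * Real.sqrt 2) ^ (2 ^ k)) := by
          refine le_trans ?_ (h3.trans h2)
          push_cast
          exact le_refl _
      _ = _ := by ring
  -- contradiction
  set ρ : ℝ := (4 * Real.exp (-(1/10))) / (2 * Real.sqrt 2) with hρ
  have hρ1 : 1 < ρ := by
    rw [hρ, one_lt_div (by positivity)]
    have h2 : (9/10 : ℝ) ≤ Real.exp (-(1/10)) := by
      have := Real.add_one_le_exp (-(1/10) : ℝ)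
      linarith
    have h3 : Real.sqrt 2 < 3/2 := by
      rw [Real.sqrt_lt' (by norm_num)]; norm_num
    linarith
  have h2 : ∀ k : ℕ, ρ ^ (2 ^ k) ≤ 2 * K := by
    intro k
    rw [hρ, div_pow, div_le_iff₀ (by positivity)]
    exact h1 k
  have h3 : Tendsto (fun m : ℕ => ρ ^ m) atTop atTop := tendsto_pow_atTop_atTop_of_one_lt hρ1
  obtain ⟨m, hm⟩ := (h3.eventually (eventually_gt_atTop (2 * K))).exists
  have h4 : ρ ^ m ≤ ρ ^ (2 ^ m) := pow_le_pow_right₀ hρ1.le (Nat.lt_two_pow_self).le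
  have := h2 m
  linarith

end

end Pool.Agent.Q190.HP
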