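import Mathlib

/-!
# The heat property and the Haagerup property: definitions
-/

set_option autoImplicit false

open ComplexConjugate

namespace Pool.Agent.Q190.HP

noncomputable section

set_option linter.unusedSectionVars false

variable (G : Type) [Group G]

/-- The Hilbert space `ℓ²(G)`. -/
abbrev ell2 : Type := lp (fun _ : G => ℂ) 2

/-- The bounded operators on `ℓ²(G)`. -/
abbrev Bd : Type := ell2 G →L[ℂ] ell2 G

variable {G}

lemma two_pos : 0 < (2 : ENNReal).toReal := by norm_num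

lemma mem_translate (g : G) (f : ell2 G) : Memℓp (fun x => f (g⁻¹ * x)) 2 := by
  rw [memℓp_gen_iff two_pos]
  exact (Equiv.mulLeft g⁻¹).summable_iff.2 ((lp.memℓp f).summable two_pos)

/-- The left translate `x ↦ f(g⁻¹x)` of `f ∈ ℓ²(G)`. -/
def translate (g : G) (f : ell2 G) : ell2 G := ⟨fun x => f (g⁻¹ * x), mem_translate g f⟩

lemma norm_translate (g : G) (f : ell2 G) : ‖translate g f‖ = ‖f‖ := by
  rw [lp.norm_eq_tsum_rpow two_pos, lp.norm_eq_tsum_rpow two_pos]
  congr 1
  exact (Equiv.mulLeft g⁻¹).tsum_eq (fun x => ‖f x‖ ^ (2 : ENNReal).toReal)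

/-- The left regular representation: `λ(g) f (x) = f(g⁻¹ x)` on `ℓ²(G)`. -/
def lam (g : G) : Bd G :=
  LinearMap.mkContinuous
    { toFun := translate g
      map_add' := fun _ _ => rfl
      map_smul' := fun _ _ => rfl } 1 (fun f => by
        rw [one_mul]; exact (norm_translate g f).le)

/-- The unit vector `δ_g` of `ℓ²(G)`. -/
def delta (g : G) : ell2 G := by
  classical exact lp.single 2 g (1 : ℂ)

variable (G) in
/-- The reduced group C*-algebra `C_r^*(G)`: the norm closure of the span of the `λ(g)`. -/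
def reducedCstar : Submodule ℂ (Bd G) := (Submodule.span ℂ (Set.range (lam (G := G)))).topologicalClosure

/-- The Fourier coefficient `x̂(g) = ⟨x δ_e, δ_g⟩`, the value of `x δ_e` at `g`. -/
def fourier (x : Bd G) (g : G) : ℂ := x (delta 1) g

/-- `x ∈ CF(G)`: `x ∈ C_r^*(G)` and the Fourier series `∑_g x̂(g) λ(g)` converges in operator norm as
an unordered sum. -/
def InCF (x : Bd G) : Prop := x ∈ reducedCstar G ∧ Summable fun g => fourier x g • lam g

/-- `d ∈ ND_0^+(G)`: `d ≥ 0`, `d(e) = 0`, `d(g⁻¹) = d(g)` and `∑_{i,j} conj(b_i) b_j d(g_i⁻¹ g_j) ≤ 0`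
whenever `∑ b_i = 0`. -/
structure ND0 (d : G → ℝ) : Prop where
  nonneg : ∀ g, 0 ≤ d g
  one : d 1 = 0
  symm : ∀ g, d g⁻¹ = d g
  neg : ∀ (n : ℕ) (g : Fin n → G) (b : Fin n → ℂ), ∑ i, b i = 0 →
    (∑ i, ∑ j, conj (b i) * b j * (d ((g i)⁻¹ * g j) : ℂ)).re ≤ 0

/-- The heat property of `G` with respect to `d`: for every `x ∈ C_r^*(G)` and `t > 0` the element
`M_t^d(x)`, i.e. the element `y` of `C_r^*(G)` with Fourier coefficients `e^{-t d(g)} x̂(g)`, belongs
to `CF(G)`. -/
def HeatWrt (d : G → ℝ) : Prop :=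
  ∀ x ∈ reducedCstar G, ∀ t : ℝ, 0 < t →
    ∃ y : Bd G, InCF y ∧ ∀ g, fourier y g = (Real.exp (-t * d g) : ℂ) * fourier x g

variable (G) in
/-- The heat property: the heat property with respect to some `d ∈ ND_0^+(G)`. -/
def HeatProperty : Prop := ∃ d : G → ℝ, ND0 d ∧ HeatWrt d

variable (G) in
/-- The Haagerup property: there is a proper `d ∈ ND_0^+(G)`. -/
def HaagerupProperty : Prop := ∃ d : G → ℝ, ND0 d ∧ ∀ s : ℝ, {g | d g ≤ s}.Finite

lemma lam_apply (g : G) (f : ell2 G) (x : G) : lam g f x = f (g⁻¹ * x) := rfl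

lemma norm_lam_apply (g : G) (f : ell2 G) : ‖lam g f‖ = ‖f‖ := norm_translate g f

lemma norm_lam_le (g : G) : ‖lam g‖ ≤ 1 := LinearMap.mkContinuous_norm_le _ zero_le_one _

lemma lam_mul (g h : G) : lam (g * h) = lam g * lam h := by
  ext f x
  rw [mul_apply_eq_comp, lam_apply, lam_apply, lam_apply, mul_inv_rev, mul_assoc]

lemma lam_one : lam (1 : G) = 1 := by
  ext f x
  rw [lam_apply]; simp

lemma delta_self (g : G) : delta g g = 1 := by
  classical
  unfold delta
  rw [lp.single_apply_self]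

lemma delta_ne {g x : G} (h : x ≠ g) : delta g x = 0 := by
  classical
  unfold delta
  rw [lp.single_apply_ne _ _ _ h]

lemma norm_delta (g : G) : ‖delta g‖ = 1 := by
  classical
  unfold delta
  rw [lp.norm_single (by norm_num)]
  simp

lemma lam_delta (g h : G) : lam g (delta h) = delta (g * h) := by
  ext x
  rw [lam_apply]
  by_cases hx : x = g * h
  · subst hx; rw [inv_mul_cancel_left, delta_self, delta_self]
  · rw [delta_ne hx, delta_ne]
    intro h1
    exact hx (by rw [← h1, mul_inv_cancel_left])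

lemma fourier_lam_self (g : G) : fourier (lam g) g = 1 := by
  unfold fourier
  rw [lam_delta, mul_one, delta_self]

lemma fourier_lam_ne {g h : G} (hne : h ≠ g) : fourier (lam g) h = 0 := by
  unfold fourier
  rw [lam_delta, mul_one, delta_ne hne]

lemma lam_mem (g : G) : lam g ∈ reducedCstar G :=
  (Submodule.span ℂ (Set.range (lam (G := G)))).le_topologicalClosure
    (Submodule.subset_span ⟨g, rfl⟩)

lemma norm_fourier_le (x : Bd G) (g : G) : ‖fourier x g‖ ≤ ‖x‖ := by
  unfold fourier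
  refine (lp.norm_apply_le_norm (by norm_num) _ g).trans ?_
  refine (x.le_opNorm _).trans ?_
  rw [norm_delta, mul_one]

/-- Fourier coefficients as functionals -/
def fourierCLM (g : G) : Bd G →L[ℂ] ℂ :=
  LinearMap.mkContinuous
    { toFun := fun x => fourier x g
      map_add' := fun _ _ => rfl
      map_smul' := fun _ _ => rfl } 1 (fun x => by
        rw [one_mul]; exact norm_fourier_le x g)

lemma fourierCLM_apply (g : G) (x : Bd G) : fourierCLM g x = fourier x g := rfl

instance : CompleteSpace (reducedCstar G) :=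
  (Submodule.span ℂ (Set.range (lam (G := G)))).isClosed_topologicalClosure.completeSpace_coe

lemma bounded_partial_sums {E ι : Type*} [NormedAddCommGroup E] {f : ι → E}
    (hf : Summable f) : ∃ C : ℝ, ∀ s : Finset ι, ‖∑ i ∈ s, f i‖ ≤ C := by
  classical
  obtain ⟨s, hs⟩ := (Summable.vanishing hf (Metric.ball_mem_nhds (0 : E) one_pos))
  refine ⟨∑ i ∈ s, ‖f i‖ + 1, fun t => ?_⟩
  have h1 : ∑ i ∈ t, f i = ∑ i ∈ t ∩ s, f i + ∑ i ∈ t \ s, f i := by
    rw [← Finset.sum_union (Finset.disjoint_left.2 fun x hx hx2 => by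
      rw [Finset.mem_sdiff] at hx2; exact hx2.2 (Finset.mem_inter.1 hx).2)]
    congr 1
    ext x
    simp only [Finset.mem_union, Finset.mem_inter, Finset.mem_sdiff]
    tauto
  rw [h1]
  refine (norm_add_le _ _).trans (add_le_add ?_ ?_)
  · refine (norm_sum_le _ _).trans ?_
    exact Finset.sum_le_sum_of_subset_of_nonneg Finset.inter_subset_right
      (fun i _ _ => norm_nonneg _)
  · have := hs (t \ s) (Finset.sdiff_disjoint)
    rw [mem_ball_zero_iff] at this
    exact this.le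

lemma bs_aux {V W : Type*} [NormedAddCommGroup V] [NormedSpace ℂ V] [CompleteSpace V]
    [NormedAddCommGroup W] [NormedSpace ℂ W] (S : Submodule ℂ V) (hS : IsClosed (S : Set V))
    {ι : Type*} (Φ : ι → V →L[ℂ] W) (h : ∀ x ∈ S, ∃ C : ℝ, ∀ i, ‖Φ i x‖ ≤ C) :
    ∃ K : ℝ, 0 ≤ K ∧ ∀ x ∈ S, ∀ i, ‖Φ i x‖ ≤ K * ‖x‖ := by
  have : CompleteSpace S := hS.completeSpace_coe
  obtain ⟨K, hK⟩ := banach_steinhaus (g := fun i => (Φ i).comp S.subtypeL)
    (fun x => h x x.2)
  refine ⟨max K 0, le_max_right _ _, fun x hx i => ?_⟩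
  have h1 := ((Φ i).comp S.subtypeL).le_opNorm ⟨x, hx⟩
  refine h1.trans ?_
  exact mul_le_mul_of_nonneg_right ((hK i).trans (le_max_left _ _)) (norm_nonneg _)

/-- Banach-Steinhaus for the partial sums. -/
theorem uniform_bound {c : G → ℂ}
    (h : ∀ x ∈ reducedCstar G, Summable fun g => (c g * fourier x g) • lam g) :
    ∃ K : ℝ, 0 ≤ K ∧ ∀ x ∈ reducedCstar G, ∀ F : Finset G,
      ‖∑ g ∈ F, (c g * fourier x g) • lam g‖ ≤ K * ‖x‖ := by
  let Φ : Finset G → (Bd G →L[ℂ] Bd G) := fun F =>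
    ∑ g ∈ F, (c g • fourierCLM g).smulRight (lam g)
  have hΦ : ∀ F (x : Bd G), Φ F x = ∑ g ∈ F, (c g * fourier (x : Bd G) g) • lam g := by
    intro F x
    simp only [Φ, sum_apply]
    refine Finset.sum_congr rfl fun g _ => ?_
    rfl
  have hpt : ∀ x ∈ reducedCstar G, ∃ C : ℝ, ∀ F, ‖Φ F x‖ ≤ C := by
    intro x hx
    obtain ⟨C, hC⟩ := bounded_partial_sums (h x hx)
    exact ⟨C, fun F => by rw [hΦ]; exact hC F⟩
  obtain ⟨K, hK0, hK⟩ := bs_aux (reducedCstar G)
    (Submodule.span ℂ (Set.range (lam (G := G)))).isClosed_topologicalClosure Φ hpt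
  refine ⟨K, hK0, fun x hx F => ?_⟩
  rw [← hΦ]
  exact hK x hx F

end

end Pool.Agent.Q190.HP
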