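import Pool.Agent.Q190.HP.Thomp

set_option autoImplicit false

namespace Pool.Agent.Q190.HP

/-- A permutation group with a self-similar region does not have the heat property. -/
theorem perm_not_heat {X : Type} (Γ : Subgroup (Equiv.Perm X)) (J : Set X) {g0 g1 a : Equiv.Perm X}
    (h0 : g0 ∈ Γ) (h1 : g1 ∈ Γ) (ha : a ∈ Γ) (hJ0 : ∀ x ∈ J, g0 x ∈ J) (hJ1 : ∀ x ∈ J, g1 x ∈ J)
    (hd : ∀ x ∈ J, ∀ y ∈ J, g0 x ≠ g1 y) (haJ : ∀ x ∉ J, a x = x) (haa : a * a ≠ 1) :
    ¬ HeatProperty Γ := by
  let B : Subgroup Γ :=
    { carrier := {b | ∀ x ∉ J, b.1 x = x}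
      one_mem' := fun x _ => rfl
      mul_mem' := by
        intro b c hb hc x hx
        show b.1 (c.1 x) = x
        rw [hc x hx, hb x hx]
      inv_mem' := by
        intro b hb x hx
        show b.1⁻¹ x = x
        rw [Equiv.Perm.inv_eq_iff_eq, hb x hx] }
  -- supports of conjugates
  have hs : ∀ (g : Equiv.Perm X) (b : Equiv.Perm X), (∀ x ∉ J, b x = x) →
      ∀ z, (∀ y ∈ J, z ≠ g y) → (g * b * g⁻¹) z = z := by
    intro g b hb z hz
    have h2 : g⁻¹ z ∉ J := by
      intro h3
      exact hz _ h3 (g.apply_symm_apply z).symm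
    show g (b (g⁻¹ z)) = z
    rw [hb _ h2]
    exact g.apply_symm_apply z
  have hcomm : ∀ x : Γ, x ∈ B → ∀ y : Γ, y ∈ B →
      Equiv.Perm.Disjoint (g0 * x.1 * g0⁻¹) (g1 * y.1 * g1⁻¹) := by
    intro x hx y hy z
    by_cases hz : ∃ y ∈ J, z = g0 y
    · obtain ⟨w, hw, rfl⟩ := hz
      right
      exact hs g1 y.1 hy _ (fun u hu => hd w hw u hu)
    · left
      push Not at hz
      exact hs g0 x.1 hx _ (fun u hu => hz u hu)
  have hdata : SelfSim B (⟨a, ha⟩ : Γ) ⟨g0, h0⟩ ⟨g1, h1⟩ := by
    constructor
    · exact haJ
    · intro h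
      exact haa (congrArg Subtype.val h)
    · intro b hb x hx
      exact hs g0 b.1 hb x (fun y hy h => hx (h ▸ hJ0 y hy))
    · intro b hb x hx
      exact hs g1 b.1 hb x (fun y hy h => hx (h ▸ hJ1 y hy))
    · intro x hx y hy
      exact Subtype.ext (hcomm x hx y hy).commute.eq
    · intro x hx y hy he
      have h2 : g0 * x.1 * g0⁻¹ = g1 * y.1 * g1⁻¹ := congrArg Subtype.val he
      have h3 := hcomm x hx y hy
      rw [← h2] at h3
      have h4 : g0 * x.1 * g0⁻¹ = 1 := by
        ext z
        rcases h3 z with h | h <;> exact h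
      apply Subtype.ext
      show x.1 = 1
      have h5 : x.1 = g0⁻¹ * (g0 * x.1 * g0⁻¹) * g0 := by group
      rw [h5, h4]
      group
  exact not_heat hdata

/-! ### three elements of `F` -/

/-- `00 ↦ 00, 01 ↦ 010, 10 ↦ 011, 11 ↦ 1` -/
def f0 (x : Cantor) : Cantor :=
  if x 0 then (if x 1 then cons true (tl (tl x)) else cons false (cons true (cons true (tl (tl x)))))
  else (if x 1 then cons false (cons true (cons false (tl (tl x)))) else x)

/-- inverse of `f0` -/
def f0i (x : Cantor) : Cantor :=
  if x 0 then cons true (cons true (tl x))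
  else (if x 1 then (if x 2 then cons true (cons false (tl (tl (tl x))))
    else cons false (cons true (tl (tl (tl x))))) else x)

/-- `000 ↦ 00, 001 ↦ 010, 01 ↦ 011, 1 ↦ 1` -/
def f1 (x : Cantor) : Cantor :=
  if x 0 then x
  else (if x 1 then cons false (cons true (cons true (tl (tl x))))
    else (if x 2 then cons false (cons true (cons false (tl (tl (tl x)))))
      else cons false (cons false (tl (tl (tl x))))))

/-- inverse of `f1` -/
def f1i (x : Cantor) : Cantor :=
  if x 0 then x
  else (if x 1 then (if x 2 then cons false (cons true (tl (tl (tl x))))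
    else cons false (cons false (cons true (tl (tl (tl x))))))
      else cons false (cons false (cons false (tl (tl x)))))

/-- `0100 ↦ 010, 0101 ↦ 0110, 011 ↦ 0111`, identity elsewhere -/
def fa (x : Cantor) : Cantor :=
  if x 0 then x
  else (if x 1 then (if x 2 then cons false (cons true (cons true (cons true (tl (tl (tl x))))))
    else (if x 3 then cons false (cons true (cons true (cons false (tl (tl (tl (tl x)))))))
      else cons false (cons true (cons false (tl (tl (tl (tl x)))))))) else x)

/-- inverse of `fa` -/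
def fai (x : Cantor) : Cantor :=
  if x 0 then x
  else (if x 1 then (if x 2 then (if x 3 then cons false (cons true (cons true (tl (tl (tl (tl x))))))
      else cons false (cons true (cons false (cons true (tl (tl (tl (tl x))))))))
    else cons false (cons true (cons false (cons false (tl (tl (tl x))))))) else x)

@[simp] lemma cons_one (b : Bool) (x : Cantor) : cons b x 1 = x 0 := rfl
@[simp] lemma cons_two (b : Bool) (x : Cantor) : cons b x 2 = x 1 := rfl
@[simp] lemma cons_three (b : Bool) (x : Cantor) : cons b x 3 = x 2 := rfl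

lemma forall_cons4 {P : Cantor → Prop}
    (h : ∀ b c d e x, P (cons b (cons c (cons d (cons e x))))) (x : Cantor) : P x := by
  rw [← cons_tl x, ← cons_tl (tl x), ← cons_tl (tl (tl x)), ← cons_tl (tl (tl (tl x)))]
  exact h _ _ _ _ _

/-- the permutation `g_0` -/
def p0 : Equiv.Perm Cantor where
  toFun := f0
  invFun := f0i
  left_inv := forall_cons4 fun b c d e x => by cases b <;> cases c <;> simp [f0, f0i]
  right_inv := forall_cons4 fun b c d e x => by cases b <;> cases c <;> cases d <;> simp [f0, f0i]

/-- the permutation `g_1` -/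
def p1 : Equiv.Perm Cantor where
  toFun := f1
  invFun := f1i
  left_inv := forall_cons4 fun b c d e x => by cases b <;> cases c <;> cases d <;> simp [f1, f1i]
  right_inv := forall_cons4 fun b c d e x => by cases b <;> cases c <;> cases d <;> simp [f1, f1i]

/-- the permutation `a` -/
def pa : Equiv.Perm Cantor where
  toFun := fa
  invFun := fai
  left_inv := forall_cons4 fun b c d e x => by
    cases b <;> cases c <;> cases d <;> cases e <;> simp [fa, fai]
  right_inv := forall_cons4 fun b c d e x => by
    cases b <;> cases c <;> cases d <;> cases e <;> simp [fa, fai]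

lemma p0_apply (x : Cantor) : p0 x = f0 x := rfl
lemma p1_apply (x : Cantor) : p1 x = f1 x := rfl
lemma pa_apply (x : Cantor) : pa x = fa x := rfl

lemma inV_of {g : Equiv.Perm Cantor}
    (h : ∀ b c d e, ∃ v : List Bool, ∀ x, g (cons b (cons c (cons d (cons e x)))) = app v x) :
    InV g := by
  refine ⟨4, fun w hw => ?_⟩
  match w, hw with
  | [b, c, d, e], _ => exact h b c d e

lemma p0_V : InV p0 := by
  apply inV_of
  intro b c d e
  cases b <;> cases c
  · exact ⟨[false, false, d, e], fun x => by simp [p0, f0, app]⟩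
  · exact ⟨[false, true, false, d, e], fun x => by simp [p0, f0, app]⟩
  · exact ⟨[false, true, true, d, e], fun x => by simp [p0, f0, app]⟩
  · exact ⟨[true, d, e], fun x => by simp [p0, f0, app]⟩

lemma p1_V : InV p1 := by
  apply inV_of
  intro b c d e
  cases b <;> cases c <;> cases d
  · exact ⟨[false, false, e], fun x => by simp [p1, f1, app]⟩
  · exact ⟨[false, true, false, e], fun x => by simp [p1, f1, app]⟩
  · exact ⟨[false, true, true, false, e], fun x => by simp [p1, f1, app]⟩
  · exact ⟨[false, true, true, true, e], fun x => by simp [p1, f1, app]⟩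
  · exact ⟨[true, false, false, e], fun x => by simp [p1, f1, app]⟩
  · exact ⟨[true, false, true, e], fun x => by simp [p1, f1, app]⟩
  · exact ⟨[true, true, false, e], fun x => by simp [p1, f1, app]⟩
  · exact ⟨[true, true, true, e], fun x => by simp [p1, f1, app]⟩

lemma pa_V : InV pa := by
  apply inV_of
  intro b c d e
  cases b
  · cases c
    · exact ⟨[false, false, d, e], fun x => by simp [pa, fa, app]⟩
    · cases d
      · cases e
        · exact ⟨[false, true, false], fun x => by simp [pa, fa, app]⟩
        · exact ⟨[false, true, true, false], fun x => by simp [pa, fa, app]⟩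
      · exact ⟨[false, true, true, true, e], fun x => by simp [pa, fa, app]⟩
  · exact ⟨[true, c, d, e], fun x => by simp [pa, fa, app]⟩

attribute [local simp] lexLT_cons lexLT_ft not_lexLT_tf

lemma p0_mono (x y : Cantor) (h : lexLT x y) : lexLT (p0 x) (p0 y) := by
  revert x y
  refine forall_cons4 fun b c d e x => forall_cons4 fun b' c' d' e' y => ?_
  show _ → lexLT (f0 _) (f0 _)
  cases b <;> cases c <;> cases b' <;> cases c' <;> simp [f0]

lemma p1_mono (x y : Cantor) (h : lexLT x y) : lexLT (p1 x) (p1 y) := by
  revert x y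
  refine forall_cons4 fun b c d e x => forall_cons4 fun b' c' d' e' y => ?_
  show _ → lexLT (f1 _) (f1 _)
  cases b <;> cases c <;> cases d <;> cases b' <;> cases c' <;> cases d' <;> simp [f1]

lemma pa_mono (x y : Cantor) (h : lexLT x y) : lexLT (pa x) (pa y) := by
  revert x y
  refine forall_cons4 fun b c d e x => forall_cons4 fun b' c' d' e' y => ?_
  show _ → lexLT (fa _) (fa _)
  cases b <;> cases c <;> cases d <;> cases e <;> cases b' <;> cases c' <;> cases d' <;>
    cases e' <;> simp [fa]

lemma p0_F : p0 ∈ thompsonF := ⟨p0_V, p0_mono⟩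
lemma p1_F : p1 ∈ thompsonF := ⟨p1_V, p1_mono⟩
lemma pa_F : pa ∈ thompsonF := ⟨pa_V, pa_mono⟩

/-- the cylinder of `01` -/
def J01 : Set Cantor := {x | x 0 = false ∧ x 1 = true}

theorem not_heat_of_F_le (Γ : Subgroup (Equiv.Perm Cantor)) (h : thompsonF ≤ Γ) :
    ¬ HeatProperty Γ := by
  apply perm_not_heat Γ J01 (h p0_F) (h p1_F) (h pa_F)
  · refine forall_cons4 fun b c d e x => ?_
    rintro ⟨h1, h2⟩
    simp only [cons_zero, cons_one] at h1 h2
    subst h1 h2
    rw [p0_apply]
    simp [f0, J01]
  · refine forall_cons4 fun b c d e x => ?_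
    rintro ⟨h1, h2⟩
    simp only [cons_zero, cons_one] at h1 h2
    subst h1 h2
    rw [p1_apply]
    simp [f1, J01]
  · refine forall_cons4 fun b c d e x => ?_
    rintro ⟨h1, h2⟩
    refine forall_cons4 fun b' c' d' e' y => ?_
    rintro ⟨h3, h4⟩
    simp only [cons_zero, cons_one] at h1 h2 h3 h4
    subst h1 h2 h3 h4
    rw [p0_apply, p1_apply]
    simp [f0, f1]
  · refine forall_cons4 fun b c d e x => ?_
    intro hx
    show fa _ = _
    cases b <;> cases c <;> simp_all [J01, fa]
  · intro h2
    have h3 := congrArg (fun g : Equiv.Perm Cantor =>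
      g (cons false (cons true (cons true (cons false (fun _ => false)))))) h2
    have h4 : fa (fa (cons false (cons true (cons true (cons false (fun _ => false))))))
      = cons false (cons true (cons true (cons false (fun _ => false)))) := h3
    simp [fa] at h4

theorem not_heat_F : ¬ HeatProperty thompsonF := not_heat_of_F_le _ le_rfl
theorem not_heat_T : ¬ HeatProperty thompsonT := not_heat_of_F_le _ F_le_T
theorem not_heat_V : ¬ HeatProperty thompsonV := not_heat_of_F_le _ (F_le_T.trans T_le_V)

end Pool.Agent.Q190.HP
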