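import Pool.Agent.Q190.HP.Elem

/-!
# Farley's proper negative definite function on Thompson's group `V`
-/

set_option autoImplicit false

open ComplexConjugate Pointwise

namespace Pool.Agent.Q190.HP

section commens

variable {G X : Type} [Group G] [MulAction G X] (Z : Set X)

/-- The function `g ↦ |gZ Δ Z|`. -/
noncomputable def dZ (g : G) : ℝ := ((g • Z) \ Z).ncard + (Z \ (g • Z)).ncard

lemma smul_sdiff_finite (hfin : ∀ g : G, ((g • Z) \ Z).Finite) (g : G) : (Z \ (g • Z)).Finite := by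
  have h : Z \ (g • Z) = g • ((g⁻¹ • Z) \ Z) := by
    rw [Set.smul_set_sdiff, smul_inv_smul]
  rw [h]
  exact (hfin g⁻¹).smul_set

open Classical in
/-- indicator -/
noncomputable def ind (A : Set X) (x : X) : ℝ := if x ∈ A then 1 else 0

lemma ncard_sdiff (A B : Set X) (Ω : Finset X) (h1 : A \ B ⊆ Ω) (h2 : B \ A ⊆ Ω) :
    ((A \ B).ncard + (B \ A).ncard : ℝ) = ∑ x ∈ Ω, (ind A x - ind B x) ^ 2 := by
  classical
  have e1 : ((A \ B).ncard : ℝ) = ∑ x ∈ Ω, if x ∈ A \ B then (1:ℝ) else 0 := by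
    rw [← Finset.sum_filter, Finset.sum_const, nsmul_eq_mul, mul_one]
    congr 1
    rw [← Set.ncard_coe_finset]
    congr 1
    ext x
    simp only [Finset.coe_filter, Set.mem_ofPred_eq]
    constructor
    · intro h; exact ⟨h1 h, h⟩
    · exact fun h => h.2
  have e2 : ((B \ A).ncard : ℝ) = ∑ x ∈ Ω, if x ∈ B \ A then (1:ℝ) else 0 := by
    rw [← Finset.sum_filter, Finset.sum_const, nsmul_eq_mul, mul_one]
    congr 1
    rw [← Set.ncard_coe_finset]
    congr 1
    ext x
    simp only [Finset.coe_filter, Set.mem_ofPred_eq]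
    constructor
    · intro h; exact ⟨h2 h, h⟩
    · exact fun h => h.2
  rw [e1, e2, ← Finset.sum_add_distrib]
  refine Finset.sum_congr rfl fun x _ => ?_
  unfold ind
  by_cases ha : x ∈ A <;> by_cases hb : x ∈ B <;> simp [ha, hb]

/-- A commensurated subset gives a negative definite function. -/
theorem dZ_nd (hfin : ∀ g : G, ((g • Z) \ Z).Finite) : ND0 (dZ (G := G) Z) := by
  classical
  have hfin2 := smul_sdiff_finite Z hfin
  constructor
  · intro g; unfold dZ; positivity
  · unfold dZ; simp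
  · intro g
    unfold dZ
    have e1 : (g⁻¹ • Z) \ Z = g⁻¹ • (Z \ (g • Z)) := by
      rw [Set.smul_set_sdiff, inv_smul_smul]
    have e2 : Z \ (g⁻¹ • Z) = g⁻¹ • ((g • Z) \ Z) := by
      rw [Set.smul_set_sdiff, inv_smul_smul]
    rw [e1, e2, Set.ncard_smul_set, Set.ncard_smul_set, add_comm]
  · intro n g b hb
    -- a finite set that carries all differences
    let Ω : Finset X := Finset.univ.biUnion (fun i : Fin n =>
      (hfin (g i)).toFinset ∪ (hfin2 (g i)).toFinset)
    have hΩ1 : ∀ i, ((g i) • Z) \ Z ⊆ Ω := by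
      intro i x hx
      simp only [Ω, Finset.coe_biUnion, Finset.coe_univ, Set.mem_univ, Set.iUnion_true,
        Set.mem_iUnion, Finset.coe_union, Set.Finite.coe_toFinset, Set.mem_union]
      exact ⟨i, Or.inl hx⟩
    have hΩ2 : ∀ i, Z \ ((g i) • Z) ⊆ Ω := by
      intro i x hx
      simp only [Ω, Finset.coe_biUnion, Finset.coe_univ, Set.mem_univ, Set.iUnion_true,
        Set.mem_iUnion, Finset.coe_union, Set.Finite.coe_toFinset, Set.mem_union]
      exact ⟨i, Or.inr hx⟩
    have hΩ3 : ∀ i j, ((g i) • Z) \ ((g j) • Z) ⊆ Ω := by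
      rintro i j x ⟨h1, h2⟩
      by_cases h3 : x ∈ Z
      · exact hΩ2 j ⟨h3, h2⟩
      · exact hΩ1 i ⟨h1, h3⟩
    have hd : ∀ i j, dZ Z ((g i)⁻¹ * g j) = ∑ x ∈ Ω, (ind ((g j) • Z) x - ind ((g i) • Z) x) ^ 2 := by
      intro i j
      rw [← ncard_sdiff _ _ Ω (hΩ3 j i) (hΩ3 i j)]
      unfold dZ
      have e1 : (((g i)⁻¹ * g j) • Z) \ Z = (g i)⁻¹ • (((g j) • Z) \ ((g i) • Z)) := by
        rw [Set.smul_set_sdiff, inv_smul_smul, mul_smul]
      have e2 : Z \ (((g i)⁻¹ * g j) • Z) = (g i)⁻¹ • (((g i) • Z) \ ((g j) • Z)) := by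
        rw [Set.smul_set_sdiff, inv_smul_smul, mul_smul]
      rw [e1, e2, Set.ncard_smul_set, Set.ncard_smul_set]
    simp_rw [hd]
    -- expand
    have hb2 : ∑ i, conj (b i) = 0 := by rw [← map_sum, hb, map_zero]
    have e1 : ∑ i, ∑ j, conj (b i) * b j *
        ((∑ x ∈ Ω, (ind ((g j) • Z) x - ind ((g i) • Z) x) ^ 2 : ℝ) : ℂ)
        = ∑ x ∈ Ω, ((-2 * ‖∑ i, b i * (ind ((g i) • Z) x : ℂ)‖ ^ 2 : ℝ) : ℂ) := by
      have e2 : ∀ i j, conj (b i) * b j *
          ((∑ x ∈ Ω, (ind ((g j) • Z) x - ind ((g i) • Z) x) ^ 2 : ℝ) : ℂ)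
          = ∑ x ∈ Ω, conj (b i) * b j * ((ind ((g j) • Z) x : ℂ) - ind ((g i) • Z) x) ^ 2 := by
        intro i j
        rw [← Finset.mul_sum]
        push_cast
        rfl
      simp_rw [e2]
      rw [Finset.sum_congr rfl fun i _ => Finset.sum_comm, Finset.sum_comm]
      refine Finset.sum_congr rfl fun x _ => ?_
      set u : Fin n → ℂ := fun i => (ind ((g i) • Z) x : ℂ) with hu
      have hcu : ∀ i, conj (u i) = u i := fun i => Complex.conj_ofReal _
      have e3 : ∑ i, ∑ j, conj (b i) * b j * (u j - u i) ^ 2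
          = (∑ i, conj (b i)) * (∑ j, b j * u j ^ 2) + (∑ i, conj (b i) * u i ^ 2) * (∑ j, b j)
            - 2 * ((∑ i, conj (b i) * u i) * (∑ j, b j * u j)) := by
        rw [Finset.sum_mul_sum, Finset.sum_mul_sum, Finset.sum_mul_sum, Finset.mul_sum,
          ← Finset.sum_add_distrib, ← Finset.sum_sub_distrib]
        refine Finset.sum_congr rfl fun i _ => ?_
        rw [Finset.mul_sum, ← Finset.sum_add_distrib, ← Finset.sum_sub_distrib]
        refine Finset.sum_congr rfl fun j _ => ?_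
        ring
      have e4 : ∑ i, conj (b i) * u i = conj (∑ i, b i * u i) := by
        rw [map_sum]
        refine Finset.sum_congr rfl fun i _ => ?_
        rw [map_mul, hcu]
      show ∑ i, ∑ j, conj (b i) * b j * (u j - u i) ^ 2 = _
      rw [e3, hb, hb2, e4, zero_mul, mul_zero, zero_add, zero_sub, mul_comm (conj _),
        Complex.mul_conj, Complex.normSq_eq_norm_sq]
      push_cast
      ring
    rw [e1, ← Complex.ofReal_sum, Complex.ofReal_re]
    apply Finset.sum_nonpos
    intro x _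
    have : 0 ≤ ‖∑ i, b i * (ind ((g i) • Z) x : ℂ)‖ ^ 2 := by positivity
    linarith

end commens

/-! ### Thompson's group -/

lemma app_injective {u v : List Bool} (h : app u = app v) : u = v := by
  induction u generalizing v with
  | nil =>
    cases v with
    | nil => rfl
    | cons c v =>
      exfalso
      have := congrFun (congrFun h (fun _ => !c)) 0
      simp [app] at this
  | cons b u ih =>
    cases v with
    | nil =>
      exfalso
      have := congrFun (congrFun h (fun _ => !b)) 0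
      simp [app] at this
    | cons c v =>
      have h1 : ∀ x, b = c ∧ app u x = app v x := fun x => cons_inj.1 (congrFun h x)
      rw [(h1 (fun _ => false)).1, ih (funext fun x => (h1 x).2)]

/-- the prefix maps -/
def ZZ : Set (Cantor → Cantor) := Set.range app

/-- the words on which `g` is not a prefix replacement -/
def bad (g : Equiv.Perm Cantor) : Set (List Bool) := {w | ¬ ∃ v, ∀ x, g (app w x) = app v x}

lemma bad_ext {g : Equiv.Perm Cantor} {w u : List Bool} (h : w ++ u ∈ bad g) : w ∈ bad g := by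
  rintro ⟨v, hv⟩
  apply h
  exact ⟨v ++ u, fun x => by rw [app_append, app_append, hv]⟩

lemma bad_length {g : Equiv.Perm Cantor} (hf : (bad g).Finite) {w : List Bool} (h : w ∈ bad g) :
    w.length < (bad g).ncard := by
  have h1 : (fun i : ℕ => w.take i) '' (Finset.range (w.length + 1) : Set ℕ) ⊆ bad g := by
    rintro _ ⟨i, _, rfl⟩
    apply bad_ext (u := w.drop i)
    rw [List.take_append_drop]
    exact h
  have h2 := Set.ncard_le_ncard h1 hf
  rw [Set.ncard_image_of_injOn, Set.ncard_coe_finset, Finset.card_range] at h2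
  · omega
  · intro i hi j hj hij
    simp only [Finset.coe_range, Set.mem_Iio] at hi hj
    have := congrArg List.length hij
    simp only [List.length_take] at this
    omega

lemma bad_finite {g : Equiv.Perm Cantor} (hg : InV g) : (bad g).Finite := by
  obtain ⟨n, hn⟩ := hg
  apply (List.finite_length_lt Bool n).subset
  intro w hw
  by_contra h
  have h2 : n ≤ w.length := by simpa using h
  exact hw (InV.extend hn w.length h2 w rfl)

variable (Γ : Subgroup (Equiv.Perm Cantor))

/-- the action by composition -/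
instance : MulAction Γ (Cantor → Cantor) where
  smul g f := fun x => g.1 (f x)
  one_smul _ := rfl
  mul_smul _ _ _ := rfl

lemma smul_def' (g : Γ) (f : Cantor → Cantor) : g • f = fun x => g.1 (f x) := rfl

lemma sdiff_eq (g : Γ) : (g • ZZ) \ ZZ = (fun w => g • app w) '' bad g.1 := by
  ext f
  constructor
  · rintro ⟨⟨_, ⟨w, rfl⟩, rfl⟩, h2⟩
    refine ⟨w, ?_, rfl⟩
    rintro ⟨v, hv⟩
    exact h2 ⟨v, (funext hv).symm⟩
  · rintro ⟨w, hw, rfl⟩
    refine ⟨⟨_, ⟨w, rfl⟩, rfl⟩, ?_⟩
    rintro ⟨v, hv⟩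
    exact hw ⟨v, fun x => (congrFun hv x).symm⟩

lemma ncard_sdiff_eq (g : Γ) : ((g • ZZ) \ ZZ).ncard = (bad g.1).ncard := by
  rw [sdiff_eq, Set.ncard_image_of_injective]
  intro u v h
  apply app_injective
  exact smul_left_cancel g h

lemma ncard_sdiff_eq' (g : Γ) : (ZZ \ (g • ZZ)).ncard = (bad g.1⁻¹).ncard := by
  have h : ZZ \ (g • ZZ) = g • ((g⁻¹ • ZZ) \ ZZ) := by
    rw [Set.smul_set_sdiff, smul_inv_smul]
  rw [h, Set.ncard_smul_set, ncard_sdiff_eq]
  rfl

/-- proper -/
lemma proper_aux (m : ℕ) : {g : Equiv.Perm Cantor | InV g ∧ (bad g).ncard ≤ m ∧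
    (bad g⁻¹).ncard ≤ m}.Finite := by
  classical
  -- words
  let W : Set (List Bool) := {w | w.length = m}
  let V : Set (List Bool) := {v | v.length < 2 * m + 1}
  have hW : W.Finite := List.finite_length_eq Bool m
  have hV : V.Finite := List.finite_length_lt Bool (2 * m + 1)
  have : Finite W := hW
  have : Finite V := hV
  have hgood : ∀ g : Equiv.Perm Cantor, InV g → (bad g).ncard ≤ m → ∀ w : List Bool,
      m ≤ w.length → ∃ v, ∀ x, g (app w x) = app v x := by
    intro g hg hb w hw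
    by_contra h
    have := bad_length (bad_finite hg) (w := w) h
    omega
  have hex : ∀ g : {g : Equiv.Perm Cantor | InV g ∧ (bad g).ncard ≤ m ∧ (bad g⁻¹).ncard ≤ m},
      ∀ w : W, ∃ v : V, ∀ x, g.1 (app w x) = app v x := by
    rintro ⟨g, hg, h1, h2⟩ ⟨w, hw⟩
    have hw' : w.length = m := hw
    obtain ⟨v, hv⟩ := hgood g hg h1 w (by rw [hw'])
    refine ⟨⟨v, ?_⟩, hv⟩
    show v.length < 2 * m + 1
    by_contra hcon
    push Not at hcon
    have hinv : InV g⁻¹ := thompsonV.inv_mem hg
    obtain ⟨u, hu⟩ := hgood g⁻¹ hinv h2 (v.take m) (by rw [List.length_take]; omega)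
    have h3 : app (u ++ v.drop m) = app w := by
      funext x
      rw [app_append, ← hu, ← app_append, List.take_append_drop, ← hv]
      exact g.symm_apply_apply _
    have h4 := app_injective h3
    have h5 := congrArg List.length h4
    rw [List.length_append, List.length_drop] at h5
    omega
  choose φ hφ using hex
  have hinj : Function.Injective φ := by
    intro g h hgh
    apply Subtype.ext
    apply Equiv.ext
    intro x
    obtain ⟨w, y, hw, rfl⟩ := exists_app m x
    rw [hφ g ⟨w, hw⟩ y, hφ h ⟨w, hw⟩ y, hgh]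
  exact Finite.of_injective φ hinj

/-- **Farley**: subgroups of Thompson's group `V` have the Haagerup property. -/
theorem haagerup_of_le (h : Γ ≤ thompsonV) : HaagerupProperty Γ := by
  have hfin : ∀ g : Γ, ((g • ZZ) \ ZZ).Finite := by
    intro g
    rw [sdiff_eq]
    exact (bad_finite (h g.2)).image _
  refine ⟨dZ ZZ, dZ_nd ZZ hfin, fun s => ?_⟩
  have hsub : {g : Γ | dZ ZZ g ≤ s} ⊆ Subtype.val ⁻¹' {g : Equiv.Perm Cantor | InV g ∧
      (bad g).ncard ≤ ⌊s⌋₊ ∧ (bad g⁻¹).ncard ≤ ⌊s⌋₊} := by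
    intro g hg
    have hg' : dZ ZZ g ≤ s := hg
    unfold dZ at hg'
    rw [ncard_sdiff_eq, ncard_sdiff_eq'] at hg'
    have h1 : (0:ℝ) ≤ (bad g.1).ncard := Nat.cast_nonneg _
    have h2 : (0:ℝ) ≤ (bad g.1⁻¹).ncard := Nat.cast_nonneg _
    refine ⟨h g.2, ?_, ?_⟩
    · exact Nat.le_floor (by linarith)
    · exact Nat.le_floor (by linarith)
  exact ((proper_aux _).preimage (Subtype.val_injective.injOn)).subset hsub

theorem countable_of_le (h : Γ ≤ thompsonV) : Countable Γ := by
  obtain ⟨d, _, hd⟩ := haagerup_of_le Γ h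
  have h1 : (Set.univ : Set Γ) = ⋃ n : ℕ, {g | d g ≤ n} := by
    ext g
    simp only [Set.mem_univ, Set.mem_iUnion, Set.mem_ofPred_eq, true_iff]
    exact exists_nat_ge (d g)
  rw [← Set.countable_univ_iff, h1]
  exact Set.countable_iUnion fun n => (hd n).countable

theorem infinite_of_ge (h : thompsonF ≤ Γ) : Infinite Γ := by
  have h1 : ¬ IsOfFinOrder (⟨pa, h pa_F⟩ : Γ) := by
    rw [isOfFinOrder_iff_pow_eq_one]
    rintro ⟨n, hn, he⟩
    let x0 : Cantor := cons false (cons true (cons true (cons false (fun _ => false))))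
    have h2 : lexLT x0 (pa x0) := by
      rw [pa_apply]
      simp [x0, fa, lexLT_cons, lexLT_ft]
    have h3 : ∀ k : ℕ, lexLT x0 ((pa ^ (k + 1)) x0) := by
      intro k
      induction k with
      | zero => simpa using h2
      | succ k ih =>
        rw [pow_succ', Equiv.Perm.mul_apply]
        exact lexLT_trans h2 (pa_mono _ _ ih)
    obtain ⟨k, rfl⟩ : ∃ k, n = k + 1 := ⟨n - 1, by omega⟩
    have h4 : pa ^ (k + 1) = 1 := congrArg Subtype.val he
    have h5 := h3 k
    rw [h4] at h5
    exact lexLT_irrefl _ h5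
  exact Infinite.of_injective _ (injective_pow_iff_not_isOfFinOrder.2 h1)

end Pool.Agent.Q190.HP
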