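import Pool.Agent.Q190.HP.Farley

/-!
# The heat property: the definitions used in the hand-ins
-/

set_option autoImplicit false

namespace Pool.Agent.Q190.HP

noncomputable section

variable {G : Type} [Group G]

/-- `p = ∑_{g ∈ s} c(g) λ(g)` (written pointwise). -/
def IsFiniteSum (c : G → ℂ) (s : Finset G) (p : Bd G) : Prop :=
  ∀ (f : ell2 G) (h : G), p f h = ∑ g ∈ s, c g * lam g f h

/-- `x ∈ C_r^*(G)`: `x` is a norm limit of finite linear combinations of the `λ(g)`. -/
def MemReducedCstar (x : Bd G) : Prop :=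
  ∀ ε : ℝ, 0 < ε → ∃ (c : G → ℂ) (s : Finset G) (p : Bd G), IsFiniteSum c s p ∧ ‖x - p‖ < ε

/-- The series `∑_g c(g) λ(g)` converges in operator norm as an unordered sum. -/
def ConvergesUnordered (c : G → ℂ) : Prop :=
  ∃ y : Bd G, ∀ ε : ℝ, 0 < ε → ∃ s₀ : Finset G, ∀ s : Finset G, s₀ ⊆ s →
    ∃ p : Bd G, IsFiniteSum c s p ∧ ‖y - p‖ < ε

/-- `x ∈ CF(G)`: `x ∈ C_r^*(G)` and its Fourier series `∑_g x̂(g) λ(g)` converges in operator norm
as an unordered sum. -/
def MemCF (x : Bd G) : Prop := MemReducedCstar x ∧ ConvergesUnordered (fourier x)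

/-- The heat property of `G` with respect to `d`: for all `x ∈ C_r^*(G)` and `t > 0` the element
`M_t^d(x)`, that is the element `y` of `C_r^*(G)` with Fourier coefficients `e^{-t d(g)} x̂(g)`,
belongs to `CF(G)`. -/
def HeatWithRespectTo (d : G → ℝ) : Prop :=
  ∀ x : Bd G, MemReducedCstar x → ∀ t : ℝ, 0 < t →
    ∃ y : Bd G, MemCF y ∧ ∀ g, fourier y g = (Real.exp (-t * d g) : ℂ) * fourier x g

variable (G) in
/-- The heat property: the heat property with respect to some `d ∈ ND_0^+(G)`. -/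
def HasHeatProperty : Prop := ∃ d : G → ℝ, ND0 d ∧ HeatWithRespectTo d

lemma sum_lam_apply (s : Finset G) (c : G → ℂ) (f : ell2 G) (h : G) :
    (∑ g ∈ s, c g • lam g : Bd G) f h = ∑ g ∈ s, c g * lam g f h := by
  classical
  induction s using Finset.induction_on with
  | empty => simp
  | insert a s ha ih =>
    rw [Finset.sum_insert ha, Finset.sum_insert ha, ← ih]
    rfl

lemma isFiniteSum_iff {c : G → ℂ} {s : Finset G} {p : Bd G} :
    IsFiniteSum c s p ↔ p = ∑ g ∈ s, c g • lam g := by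
  constructor
  · intro h
    ext f x
    rw [h, sum_lam_apply]
  · rintro rfl f x
    exact sum_lam_apply _ _ _ _

lemma convergesUnordered_iff (c : G → ℂ) :
    ConvergesUnordered c ↔ Summable fun g => c g • lam g := by
  classical
  constructor
  · rintro ⟨y, hy⟩
    refine ⟨y, ?_⟩
    rw [HasSum, SummationFilter.unconditional_filter, Metric.tendsto_atTop]
    intro ε hε
    obtain ⟨s₀, h⟩ := hy ε hε
    refine ⟨s₀, fun s hs => ?_⟩
    obtain ⟨p, hp, hp2⟩ := h s hs
    rw [isFiniteSum_iff] at hp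
    rw [dist_comm, dist_eq_norm, ← hp]
    exact hp2
  · rintro ⟨y, hy⟩
    refine ⟨y, fun ε hε => ?_⟩
    rw [HasSum, SummationFilter.unconditional_filter, Metric.tendsto_atTop] at hy
    obtain ⟨s₀, h⟩ := hy ε hε
    refine ⟨s₀, fun s hs => ⟨_, isFiniteSum_iff.2 rfl, ?_⟩⟩
    rw [← dist_eq_norm, dist_comm]
    exact h s hs

lemma memReducedCstar_iff (x : Bd G) : MemReducedCstar x ↔ x ∈ reducedCstar G := by
  have h2 : x ∈ reducedCstar G ↔ x ∈ closure (Submodule.span ℂ (Set.range (lam (G := G))) : Set (Bd G)) :=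
    Iff.rfl
  rw [h2, Metric.mem_closure_iff]
  constructor
  · intro h ε hε
    obtain ⟨c, s, p, hp1, hp2⟩ := h ε hε
    rw [isFiniteSum_iff] at hp1
    refine ⟨p, ?_, by rw [dist_eq_norm]; exact hp2⟩
    rw [hp1]
    exact Submodule.sum_mem _ fun g _ => Submodule.smul_mem _ _ (Submodule.subset_span ⟨g, rfl⟩)
  · intro h ε hε
    obtain ⟨p, hp1, hp2⟩ := h ε hε
    have hp3 : p ∈ Submodule.span ℂ (Set.range (lam (G := G))) := hp1
    rw [Finsupp.mem_span_range_iff_exists_finsupp] at hp3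
    obtain ⟨c, hc⟩ := hp3
    refine ⟨c, c.support, p, ?_, by rw [← dist_eq_norm]; exact hp2⟩
    rw [isFiniteSum_iff, ← hc]
    rfl

lemma heat_of_has (h : HasHeatProperty G) : HeatProperty G := by
  obtain ⟨d, hd, h⟩ := h
  refine ⟨d, hd, fun x hx t ht => ?_⟩
  obtain ⟨y, ⟨hy1, hy2⟩, hy3⟩ := h x ((memReducedCstar_iff x).2 hx) t ht
  exact ⟨y, ⟨(memReducedCstar_iff y).1 hy1, (convergesUnordered_iff _).1 hy2⟩, hy3⟩

end

end Pool.Agent.Q190.HP
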