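import Pool.Agent.Q190.HP.Crit2

/-!
# Thompson's groups `F ⊆ T ⊆ V` as groups of homeomorphisms of the Cantor set `{0,1}^ℕ`
-/

set_option autoImplicit false

namespace Pool.Agent.Q190.HP

/-- The Cantor set `{0,1}^ℕ`. -/
abbrev Cantor : Type := ℕ → Bool

/-- The sequence `b x_0 x_1 x_2 …`. -/
def cons (b : Bool) (x : Cantor) : Cantor := fun n => Nat.casesOn n b x

/-- The sequence `w x`, for a finite word `w`. -/
def app : List Bool → Cantor → Cantor
  | [], x => x
  | b :: w, x => cons b (app w x)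

/-- `g` is an element of Thompson's group `V`: for some `n`, on every cylinder of a word `w` of length
`n`, `g` replaces the prefix `w` by some word `v`. -/
def InV (g : Equiv.Perm Cantor) : Prop :=
  ∃ n : ℕ, ∀ w : List Bool, w.length = n → ∃ v : List Bool, ∀ x, g (app w x) = app v x

/-- The lexicographic order of the Cantor set. -/
def lexLT (x y : Cantor) : Prop := toLex x < toLex y

/-- The cyclic order of the Cantor set. -/
def cyc (x y z : Cantor) : Prop :=
  (lexLT x y ∧ lexLT y z) ∨ (lexLT y z ∧ lexLT z x) ∨ (lexLT z x ∧ lexLT x y)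

lemma pinv (g : Equiv.Perm Cantor) (x : Cantor) : g (g⁻¹ x) = x := g.apply_symm_apply x

/-- shift -/
def tl (x : Cantor) : Cantor := fun n => x (n + 1)

@[simp] lemma cons_zero (b : Bool) (x : Cantor) : cons b x 0 = b := rfl
@[simp] lemma cons_succ (b : Bool) (x : Cantor) (n : ℕ) : cons b x (n + 1) = x n := rfl
@[simp] lemma tl_cons (b : Bool) (x : Cantor) : tl (cons b x) = x := rfl

lemma cons_tl (x : Cantor) : cons (x 0) (tl x) = x := by
  funext n
  cases n <;> rfl

@[simp] lemma cons_inj {b c : Bool} {x y : Cantor} : cons b x = cons c y ↔ b = c ∧ x = y := by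
  constructor
  · intro h
    exact ⟨congrFun h 0, by rw [← tl_cons b x, h, tl_cons]⟩
  · rintro ⟨rfl, rfl⟩; rfl

lemma app_append (u v : List Bool) (x : Cantor) : app (u ++ v) x = app u (app v x) := by
  induction u with
  | nil => rfl
  | cons b u ih => simp only [List.cons_append, app, ih]

lemma exists_app (n : ℕ) (x : Cantor) : ∃ (w : List Bool) (y : Cantor), w.length = n ∧ x = app w y := by
  induction n generalizing x with
  | zero => exact ⟨[], x, rfl, rfl⟩
  | succ n ih =>
    obtain ⟨w, y, hw, hy⟩ := ih (tl x)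
    refine ⟨x 0 :: w, y, by simp [hw], ?_⟩
    rw [app, ← hy, cons_tl]

lemma app_inj_right {w : List Bool} {x y : Cantor} (h : app w x = app w y) : x = y := by
  induction w with
  | nil => exact h
  | cons b w ih => exact ih ((cons_inj.1 h).2)

/-- comparison of prefixes -/
lemma app_eq_app {u v : List Bool} {x y : Cantor} (h : app u x = app v y)
    (hl : u.length ≤ v.length) : ∃ w, v = u ++ w ∧ x = app w y := by
  induction u generalizing v with
  | nil => exact ⟨v, rfl, h⟩
  | cons b u ih =>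
    cases v with
    | nil => simp at hl
    | cons c v =>
      obtain ⟨h1, h2⟩ := cons_inj.1 h
      obtain ⟨w, hw1, hw2⟩ := ih h2 (by simpa using hl)
      exact ⟨w, by rw [h1, hw1]; rfl, hw2⟩

lemma InV.extend {g : Equiv.Perm Cantor} {n : ℕ}
    (h : ∀ w : List Bool, w.length = n → ∃ v : List Bool, ∀ x, g (app w x) = app v x) (m : ℕ)
    (hm : n ≤ m) : ∀ w : List Bool, w.length = m → ∃ v : List Bool, ∀ x, g (app w x) = app v x := by
  intro w hw
  obtain ⟨v, hv⟩ := h (w.take n) (by rw [List.length_take]; omega)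
  refine ⟨v ++ w.drop n, fun x => ?_⟩
  have : w = w.take n ++ w.drop n := (List.take_append_drop n w).symm
  conv_lhs => rw [this]
  rw [app_append, app_append, hv]

/-- Thompson's group `V`. -/
def thompsonV : Subgroup (Equiv.Perm Cantor) where
  carrier := {g | InV g}
  one_mem' := ⟨0, fun w _ => ⟨w, fun _ => rfl⟩⟩
  mul_mem' := by
    rintro g h ⟨n, hn⟩ ⟨m, hm⟩
    refine ⟨m + n, fun w hw => ?_⟩
    obtain ⟨v, hv⟩ := hm (w.take m) (by rw [List.length_take]; omega)
    have hw2 : w = w.take m ++ w.drop m := (List.take_append_drop m w).symm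
    obtain ⟨u, hu⟩ := InV.extend hn (v ++ w.drop m).length (by
      rw [List.length_append, List.length_drop]; omega) _ rfl
    refine ⟨u, fun x => ?_⟩
    conv_lhs => rw [hw2]
    rw [app_append, Equiv.Perm.mul_apply, hv, ← app_append, hu]
  inv_mem' := by
    rintro g ⟨n, hn⟩
    choose φ hφ using hn
    -- words of length n form a finite set
    have hfin : {w : List Bool | w.length = n}.Finite := List.finite_length_eq Bool n
    obtain ⟨N, hN⟩ : ∃ N : ℕ, ∀ (w : List Bool) (hw : w.length = n), (φ w hw).length ≤ N := by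
      classical
      refine ⟨hfin.toFinset.sup (fun w => if hw : w.length = n then (φ w hw).length else 0),
        fun w hw => ?_⟩
      have h1 := Finset.le_sup (f := fun w => if hw : w.length = n then (φ w hw).length else 0)
        (hfin.mem_toFinset.2 hw)
      simpa [hw] using h1
    refine ⟨N, fun v hv => ?_⟩
    obtain ⟨w, y, hw, hy⟩ := exists_app n (g⁻¹ (app v (fun _ => false)))
    have h1 : app v (fun _ => false) = app (φ w hw) y := by
      rw [← hφ w hw, ← hy, pinv]
    obtain ⟨u, hu1, hu2⟩ := app_eq_app h1.symm (by rw [hv]; exact hN w hw)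
    refine ⟨w ++ u, fun x => ?_⟩
    rw [Equiv.Perm.inv_eq_iff_eq, app_append, hφ w hw, ← app_append, ← hu1]

lemma mem_V {g : Equiv.Perm Cantor} : g ∈ thompsonV ↔ InV g := Iff.rfl

lemma lexLT_trans {x y z : Cantor} (h1 : lexLT x y) (h2 : lexLT y z) : lexLT x z := lt_trans h1 h2
lemma lexLT_irrefl (x : Cantor) : ¬ lexLT x x := lt_irrefl _
lemma lexLT_asymm {x y : Cantor} (h1 : lexLT x y) : ¬ lexLT y x := lt_asymm h1
lemma lexLT_tri (x y : Cantor) : lexLT x y ∨ x = y ∨ lexLT y x := by
  rcases lt_trichotomy (toLex x) (toLex y) with h | h | h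
  · exact Or.inl h
  · exact Or.inr (Or.inl (toLex.injective h))
  · exact Or.inr (Or.inr h)

/-- Thompson's group `F`: the elements of `V` that preserve the lexicographic order. -/
def thompsonF : Subgroup (Equiv.Perm Cantor) where
  carrier := {g | InV g ∧ ∀ x y, lexLT x y → lexLT (g x) (g y)}
  one_mem' := ⟨thompsonV.one_mem, fun _ _ h => h⟩
  mul_mem' := by
    rintro g h ⟨hg1, hg2⟩ ⟨hh1, hh2⟩
    exact ⟨thompsonV.mul_mem hg1 hh1, fun x y hxy => hg2 _ _ (hh2 _ _ hxy)⟩
  inv_mem' := by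
    rintro g ⟨hg1, hg2⟩
    refine ⟨thompsonV.inv_mem hg1, fun x y hxy => ?_⟩
    rcases lexLT_tri (g⁻¹ x) (g⁻¹ y) with h | h | h
    · exact h
    · have := congrArg g h
      rw [pinv, pinv] at this
      rw [this] at hxy
      exact absurd hxy (lexLT_irrefl _)
    · have := hg2 _ _ h
      rw [pinv, pinv] at this
      exact absurd this (lexLT_asymm hxy)

lemma cyc_ne {x y z : Cantor} (h : cyc x y z) : x ≠ y ∧ y ≠ z ∧ z ≠ x := by
  rcases h with ⟨h1, h2⟩ | ⟨h1, h2⟩ | ⟨h1, h2⟩
  · refine ⟨?_, ?_, ?_⟩ <;> rintro rfl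
    · exact lexLT_irrefl _ h1
    · exact lexLT_irrefl _ h2
    · exact lexLT_asymm h1 h2
  · refine ⟨?_, ?_, ?_⟩ <;> rintro rfl
    · exact lexLT_asymm h1 h2
    · exact lexLT_irrefl _ h1
    · exact lexLT_irrefl _ h2
  · refine ⟨?_, ?_, ?_⟩ <;> rintro rfl
    · exact lexLT_irrefl _ h2
    · exact lexLT_asymm h1 h2
    · exact lexLT_irrefl _ h1

lemma cyc_asymm {x y z : Cantor} (h : cyc x y z) : ¬ cyc z y x := by
  rintro (⟨a1, a2⟩ | ⟨a1, a2⟩ | ⟨a1, a2⟩) <;> rcases h with ⟨h1, h2⟩ | ⟨h1, h2⟩ | ⟨h1, h2⟩ <;>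
    first
      | exact lexLT_asymm a1 h1
      | exact lexLT_asymm a1 h2
      | exact lexLT_asymm a2 h1
      | exact lexLT_asymm a2 h2

lemma cyc_total {x y z : Cantor} (h1 : x ≠ y) (h2 : y ≠ z) (h3 : z ≠ x) : cyc x y z ∨ cyc z y x := by
  unfold cyc
  rcases lexLT_tri x y with a | a | a
  · rcases lexLT_tri y z with b | b | b
    · tauto
    · exact absurd b h2
    · rcases lexLT_tri z x with c | c | c
      · tauto
      · exact absurd c h3
      · tauto
  · exact absurd a h1
  · rcases lexLT_tri y z with b | b | b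
    · rcases lexLT_tri z x with c | c | c
      · tauto
      · exact absurd c h3
      · tauto
    · exact absurd b h2
    · tauto

/-- Thompson's group `T`: the elements of `V` that preserve the cyclic order. -/
def thompsonT : Subgroup (Equiv.Perm Cantor) where
  carrier := {g | InV g ∧ ∀ x y z, cyc x y z → cyc (g x) (g y) (g z)}
  one_mem' := ⟨thompsonV.one_mem, fun _ _ _ h => h⟩
  mul_mem' := by
    rintro g h ⟨hg1, hg2⟩ ⟨hh1, hh2⟩
    exact ⟨thompsonV.mul_mem hg1 hh1, fun x y z hxy => hg2 _ _ _ (hh2 _ _ _ hxy)⟩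
  inv_mem' := by
    rintro g ⟨hg1, hg2⟩
    refine ⟨thompsonV.inv_mem hg1, fun x y z hxy => ?_⟩
    obtain ⟨n1, n2, n3⟩ := cyc_ne hxy
    rcases cyc_total (x := g⁻¹ x) (y := g⁻¹ y) (z := g⁻¹ z) (by simpa using n1) (by simpa using n2)
      (by simpa using n3) with h | h
    · exact h
    · have := hg2 _ _ _ h
      rw [pinv, pinv, pinv] at this
      exact absurd this (cyc_asymm hxy)

lemma F_le_T : thompsonF ≤ thompsonT := by
  rintro g ⟨hg1, hg2⟩
  refine ⟨hg1, fun x y z h => ?_⟩
  rcases h with ⟨h1, h2⟩ | ⟨h1, h2⟩ | ⟨h1, h2⟩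
  · exact Or.inl ⟨hg2 _ _ h1, hg2 _ _ h2⟩
  · exact Or.inr (Or.inl ⟨hg2 _ _ h1, hg2 _ _ h2⟩)
  · exact Or.inr (Or.inr ⟨hg2 _ _ h1, hg2 _ _ h2⟩)

lemma T_le_V : thompsonT ≤ thompsonV := fun _ hg => hg.1

/-! ### order on cons -/

lemma lexLT_iff (x y : Cantor) : lexLT x y ↔ ∃ n, (∀ i < n, x i = y i) ∧ x n < y n := Iff.rfl

lemma lexLT_cons (b : Bool) {x y : Cantor} : lexLT (cons b x) (cons b y) ↔ lexLT x y := by
  rw [lexLT_iff, lexLT_iff]
  constructor
  · rintro ⟨n, h1, h2⟩
    cases n with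
    | zero => exact absurd h2 (lt_irrefl _)
    | succ n =>
      refine ⟨n, fun i hi => ?_, h2⟩
      have := h1 (i + 1) (by omega)
      simpa using this
  · rintro ⟨n, h1, h2⟩
    refine ⟨n + 1, fun i hi => ?_, h2⟩
    cases i with
    | zero => rfl
    | succ i => exact h1 i (by omega)

lemma lexLT_ft (x y : Cantor) : lexLT (cons false x) (cons true y) := by
  rw [lexLT_iff]
  exact ⟨0, fun i hi => absurd hi (Nat.not_lt_zero _), by
    rw [cons_zero, cons_zero]; decide⟩

lemma not_lexLT_tf (x y : Cantor) : ¬ lexLT (cons true x) (cons false y) :=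
  lexLT_asymm (lexLT_ft y x)

lemma forall_cons {P : Cantor → Prop} (h : ∀ b x, P (cons b x)) (x : Cantor) : P x := by
  rw [← cons_tl x]; exact h _ _

end Pool.Agent.Q190.HP
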